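import Pool.Agent.Helper49_LCR.Stmts

/-!
# Module SEG: straight drawings are drawings
-/

namespace Pool.Agent.LCR.H91

open Pool.Agent.LCR

/-- cross product -/
def cr (d d' : Pt) : ℝ := d.1 * d'.2 - d.2 * d'.1

theorem isCurve_segment {p q : Pt} (h : p ≠ q) : IsCurve (segment ℝ p q) p q := by
  refine ⟨fun t => AffineMap.lineMap p q t, ?_, ?_, ?_, ?_, ?_⟩
  · exact (AffineMap.lineMap_continuous (p := p) (q := q)).continuousOn
  · exact (AffineMap.lineMap_injective ℝ h).injOn
  · exact AffineMap.lineMap_apply_zero _ _
  · exact AffineMap.lineMap_apply_one _ _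
  · exact (segment_eq_image_lineMap ℝ p q).symm

/-- two transversal segments have at most one common point -/
theorem transversal_unique {a b c d p p' : Pt} (hD : cr (b - a) (d - c) ≠ 0)
    (hp : p ∈ segment ℝ a b ∩ segment ℝ c d) (hp' : p' ∈ segment ℝ a b ∩ segment ℝ c d) :
    p = p' := by
  rw [segment_eq_image', segment_eq_image'] at hp hp'
  obtain ⟨⟨s, _, hs⟩, ⟨t, _, ht⟩⟩ := hp
  obtain ⟨⟨s', _, hs'⟩, ⟨t', _, ht'⟩⟩ := hp'
  simp only at hs ht hs' ht'
  have e1 : a + s • (b - a) = c + t • (d - c) := by rw [hs, ht]
  have e2 : a + s' • (b - a) = c + t' • (d - c) := by rw [hs', ht']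
  have h1 := congrArg Prod.fst e1
  have h2 := congrArg Prod.snd e1
  have h3 := congrArg Prod.fst e2
  have h4 := congrArg Prod.snd e2
  simp only [Prod.fst_add, Prod.snd_add, Prod.smul_fst, Prod.smul_snd, Prod.fst_sub, Prod.snd_sub,
    smul_eq_mul] at h1 h2 h3 h4
  have h5 : (s - s') * cr (b - a) (d - c) = 0 := by
    unfold cr
    simp only [Prod.fst_sub, Prod.snd_sub]
    linear_combination (d.2 - c.2) * (h1 - h3) - (d.1 - c.1) * (h2 - h4)
  have h6 : s = s' := by
    rcases mul_eq_zero.1 h5 with h | h
    · linarith
    · exact absurd h hD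
  rw [← hs, ← hs', h6]

/-- the affine coordinates at `p` with respect to the basis `d`, `d'` -/
noncomputable def aff (p d d' : Pt) (hD : cr d d' ≠ 0) : Pt ≃ₜ Pt where
  toFun z := (cr (z - p) d' / cr d d', cr d (z - p) / cr d d')
  invFun y := p + y.1 • d + y.2 • d'
  left_inv z := by
    ext
    · simp only [Prod.fst_add, Prod.smul_fst, smul_eq_mul]
      field_simp
      unfold cr
      simp only [Prod.fst_sub, Prod.snd_sub]
      ring
    · simp only [Prod.snd_add, Prod.smul_snd, smul_eq_mul]
      field_simp
      unfold cr
      simp only [Prod.fst_sub, Prod.snd_sub]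
      ring
  right_inv y := by
    ext
    · simp only
      rw [div_eq_iff hD]
      unfold cr
      simp only [Prod.fst_sub, Prod.snd_sub, Prod.fst_add, Prod.snd_add, Prod.smul_fst,
        Prod.smul_snd, smul_eq_mul]
      ring
    · simp only
      rw [div_eq_iff hD]
      unfold cr
      simp only [Prod.fst_sub, Prod.snd_sub, Prod.fst_add, Prod.snd_add, Prod.smul_fst,
        Prod.smul_snd, smul_eq_mul]
      ring
  continuous_toFun := by
    unfold cr
    fun_prop
  continuous_invFun := by fun_prop

theorem aff_apply (p d d' : Pt) (hD : cr d d' ≠ 0) (z : Pt) :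
    aff p d d' hD z = (cr (z - p) d' / cr d d', cr d (z - p) / cr d d') := rfl

theorem aff_symm_apply (p d d' : Pt) (hD : cr d d' ≠ 0) (y : Pt) :
    (aff p d d' hD).symm y = p + y.1 • d + y.2 • d' := rfl

/-- a transversal interior intersection of two segments is a proper crossing -/
theorem properCrossing_segment {a b c d p : Pt} (hD : cr (b - a) (d - c) ≠ 0)
    (h1 : p ∈ openSegment ℝ a b) (h2 : p ∈ openSegment ℝ c d) :
    ProperCrossing (segment ℝ a b) (segment ℝ c d) p := by
  rw [openSegment_eq_image'] at h1 h2
  obtain ⟨s, ⟨hs0, hs1⟩, hs⟩ := h1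
  obtain ⟨t, ⟨ht0, ht1⟩, ht⟩ := h2
  simp only at hs ht
  set δ : ℝ := min (min s (1 - s)) (min t (1 - t)) with hδ
  have hδ0 : 0 < δ := by
    rw [hδ]
    exact lt_min (lt_min hs0 (by linarith)) (lt_min ht0 (by linarith))
  have d1 : δ ≤ s := (min_le_left _ _).trans (min_le_left _ _)
  have d2 : δ ≤ 1 - s := (min_le_left _ _).trans (min_le_right _ _)
  have d3 : δ ≤ t := (min_le_right _ _).trans (min_le_left _ _)
  have d4 : δ ≤ 1 - t := (min_le_right _ _).trans (min_le_right _ _)
  set φ := aff p (b - a) (d - c) hD with hφ
  set U : Set Pt := {z | |(φ z).1| < δ ∧ |(φ z).2| < δ} with hU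
  have hUo : IsOpen U := by
    have c1 : Continuous fun z => |(φ z).1| := (continuous_fst.comp φ.continuous).abs
    have c2 : Continuous fun z => |(φ z).2| := (continuous_snd.comp φ.continuous).abs
    exact (isOpen_lt c1 continuous_const).inter (isOpen_lt c2 continuous_const)
  have hφp : φ p = 0 := by
    rw [hφ, aff_apply]
    ext
    · simp [cr]
    · simp [cr]
  refine ⟨φ.toOpenPartialHomeomorph.restrOpen U hUo, ?_, hφp, ?_⟩
  · rw [OpenPartialHomeomorph.restrOpen_source]
    refine ⟨Set.mem_univ _, ?_⟩
    rw [hU, Set.mem_ofPred_eq, hφp]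
    simpa using hδ0
  · intro x hx
    rw [OpenPartialHomeomorph.restrOpen_source] at hx
    obtain ⟨_, hx1, hx2⟩ := hx
    change (x ∈ segment ℝ a b ↔ (φ x).2 = 0) ∧ (x ∈ segment ℝ c d ↔ (φ x).1 = 0)
    have hx3 : x = p + (φ x).1 • (b - a) + (φ x).2 • (d - c) := by
      have := φ.symm_apply_apply x
      rw [hφ, aff_symm_apply] at this
      exact this.symm
    constructor
    · constructor
      · intro hm
        rw [segment_eq_image'] at hm
        obtain ⟨s', _, hs'⟩ := hm
        simp only at hs'
        rw [hφ, aff_apply]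
        simp only
        rw [div_eq_zero_iff]
        left
        rw [← hs', ← hs]
        unfold cr
        simp only [Prod.fst_sub, Prod.snd_sub, Prod.fst_add, Prod.snd_add, Prod.smul_fst,
          Prod.smul_snd, smul_eq_mul]
        ring
      · intro h0
        rw [segment_eq_image']
        refine ⟨s + (φ x).1, ?_, ?_⟩
        · rw [abs_lt] at hx1
          constructor
          · linarith [hx1.1]
          · linarith [hx1.2]
        · simp only
          conv_rhs => rw [hx3, h0, ← hs]
          module
    · constructor
      · intro hm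
        rw [segment_eq_image'] at hm
        obtain ⟨s', _, hs'⟩ := hm
        simp only at hs'
        rw [hφ, aff_apply]
        simp only
        rw [div_eq_zero_iff]
        left
        rw [← hs', ← ht]
        unfold cr
        simp only [Prod.fst_sub, Prod.snd_sub, Prod.fst_add, Prod.snd_add, Prod.smul_fst,
          Prod.smul_snd, smul_eq_mul]
        ring
      · intro h0
        rw [segment_eq_image']
        refine ⟨t + (φ x).2, ?_, ?_⟩
        · rw [abs_lt] at hx2
          constructor
          · linarith [hx2.1]
          · linarith [hx2.2]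
        · simp only
          conv_rhs => rw [hx3, h0, ← ht]
          module

/-- module SEG -/
theorem seg : SegStmt := by
  classical
  intro V _ G P k hP hv hc hk
  have hadj : ∀ u v, G.Adj u v → P u ≠ P v := fun u v h he => h.ne (hP he)
  let cv : Sym2 V → Set Pt := Sym2.lift ⟨fun u v => segment ℝ (P u) (P v),
    fun u v => segment_symm ℝ (P u) (P v)⟩
  have hcv : ∀ u v, cv s(u, v) = segment ℝ (P u) (P v) := fun u v => rfl
  -- a common point of two edges is a common endpoint or a transversal crossing
  have huniq : ∀ u v x y, G.Adj u v → G.Adj x y → s(u, v) ≠ s(x, y) →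
      ∀ p p', p ∈ segment ℝ (P u) (P v) ∩ segment ℝ (P x) (P y) →
        p' ∈ segment ℝ (P u) (P v) ∩ segment ℝ (P x) (P y) →
        (¬ ∃ w, (w = u ∨ w = v) ∧ (w = x ∨ w = y) ∧ p = P w) → p = p' := by
    intro u v x y h1 h2 hne p p' hp hp' hn
    rcases hc u v x y h1 h2 hne p hp with h | ⟨_, h⟩
    · exact absurd h hn
    · exact transversal_unique h hp hp'
  let D : Drawing G :=
    { pos := P
      curve := cv
      pos_inj := hP
      isCurve := fun u v h => isCurve_segment (hadj u v h)
      vertex := by
        intro e he w hw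
        induction e using Sym2.ind with
        | _ u v =>
          rw [SimpleGraph.mem_edgeSet] at he
          rw [hcv] at hw
          rw [Sym2.mem_iff]
          exact hv u v w he hw
      finite := by
        intro e he f hf hne
        induction e using Sym2.ind with
        | _ u v =>
          induction f using Sym2.ind with
          | _ x y =>
            rw [SimpleGraph.mem_edgeSet] at he hf
            rw [hcv, hcv]
            have h1 : (segment ℝ (P u) (P v) ∩ segment ℝ (P x) (P y)) ⊆
                {P u, P v} ∪ {p | p ∈ segment ℝ (P u) (P v) ∩ segment ℝ (P x) (P y) ∧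
                  ¬ ∃ w, (w = u ∨ w = v) ∧ (w = x ∨ w = y) ∧ p = P w} := by
              intro p hp
              by_cases hn : ∃ w, (w = u ∨ w = v) ∧ (w = x ∨ w = y) ∧ p = P w
              · left
                obtain ⟨w, hw, _, rfl⟩ := hn
                rcases hw with rfl | rfl
                · exact Or.inl rfl
                · exact Or.inr rfl
              · right
                exact ⟨hp, hn⟩
            refine Set.Finite.subset ?_ h1
            refine Set.Finite.union (Set.toFinite _) ?_
            refine Set.Subsingleton.finite ?_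
            intro p hp p' hp'
            exact huniq u v x y he hf hne p p' hp.1 hp'.1 hp.2
      proper := by
        intro e he f hf hne p hp
        induction e using Sym2.ind with
        | _ u v =>
          induction f using Sym2.ind with
          | _ x y =>
            rw [SimpleGraph.mem_edgeSet] at he hf
            rw [hcv, hcv] at hp
            rcases hc u v x y he hf hne p hp with ⟨w, h1, h2, h3⟩ | ⟨h1, h2⟩
            · left
              refine ⟨w, ?_, ?_, h3⟩
              · rw [Sym2.mem_iff]; exact h1
              · rw [Sym2.mem_iff]; exact h2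
            · right
              rw [hcv, hcv]
              exact properCrossing_segment h2 h1.1 h1.2 }
  refine ⟨D, ?_⟩
  intro e he
  induction e using Sym2.ind with
  | _ u v =>
    rw [SimpleGraph.mem_edgeSet] at he
    refine le_trans ?_ (hk u v he)
    have hinj : Set.InjOn Prod.fst (D.crossings s(u, v)) := by
      rintro ⟨f, p⟩ hx ⟨f', p'⟩ hx' hff
      simp only at hff
      subst hff
      obtain ⟨h1, h2, h3, h4⟩ := hx
      obtain ⟨_, _, h3', _⟩ := hx'
      simp only at h1 h2 h3 h4 h3'
      induction f using Sym2.ind with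
      | _ x y =>
        rw [SimpleGraph.mem_edgeSet] at h1
        have hp : p = p' := by
          refine huniq u v x y he h1 (Ne.symm h2) p p' h3 h3' ?_
          rintro ⟨w, hw1, hw2, hw3⟩
          refine h4 ⟨w, ?_, ?_, hw3⟩
          · rw [Sym2.mem_iff]; exact hw1
          · rw [Sym2.mem_iff]; exact hw2
        rw [hp]
    rw [← hinj.encard_image]
    refine Set.encard_le_encard ?_
    rintro _ ⟨⟨f, p⟩, ⟨h1, h2, h3, h4⟩, rfl⟩
    simp only at h1 h2 h3 h4 ⊢
    induction f using Sym2.ind with
    | _ x y =>
      rw [SimpleGraph.mem_edgeSet] at h1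
      refine ⟨x, y, h1, rfl, h2, p, h3, ?_⟩
      rintro ⟨w, hw1, hw2, hw3⟩
      refine h4 ⟨w, ?_, ?_, hw3⟩
      · rw [Sym2.mem_iff]; exact hw1
      · rw [Sym2.mem_iff]; exact hw2

end Pool.Agent.LCR.H91
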