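import Pool.Agent.Helper49_LCR.Stmts

/-!
# Module SEL: selection of one strand of each bundle
-/

namespace Pool.Agent.LCR.H91

open Pool.Agent.LCR

/-! ### curves -/

theorem IsCurve.left {A : Set Pt} {p q : Pt} (h : IsCurve A p q) : p ∈ A := by
  obtain ⟨γ, _, _, h0, _, hA⟩ := h
  rw [← hA, ← h0]
  exact Set.mem_image_of_mem _ (Set.left_mem_Icc.2 zero_le_one)

theorem IsCurve.right {A : Set Pt} {p q : Pt} (h : IsCurve A p q) : q ∈ A := by
  obtain ⟨γ, _, _, _, h1, hA⟩ := h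
  rw [← hA, ← h1]
  exact Set.mem_image_of_mem _ (Set.right_mem_Icc.2 zero_le_one)

theorem IsCurve.compact {A : Set Pt} {p q : Pt} (h : IsCurve A p q) : IsCompact A := by
  obtain ⟨γ, hc, _, _, _, hA⟩ := h
  rw [← hA]
  exact isCompact_Icc.image_of_continuousOn hc

/-- the part of the curve from the first point -/
theorem IsCurve.join_left {A : Set Pt} {p q x : Pt} (h : IsCurve A p q) (hx : x ∈ A) (hne : x ≠ q) :
    JoinedIn (A \ {q}) p x := by
  obtain ⟨γ, hc, hi, h0, h1, hA⟩ := h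
  rw [← hA] at hx
  obtain ⟨t, ⟨ht0, ht1⟩, rfl⟩ := hx
  have ht : t < 1 := lt_of_le_of_ne ht1 (fun h => hne (by rw [h, h1]))
  have hm : ∀ s ∈ Set.Icc (0 : ℝ) 1, s * t ∈ Set.Icc (0 : ℝ) 1 := fun s hs =>
    ⟨mul_nonneg hs.1 ht0, mul_le_one₀ hs.2 ht0 ht1⟩
  refine JoinedIn.ofLine (f := fun s => γ (s * t)) ?_ ?_ ?_ ?_
  · exact hc.comp (by fun_prop) hm
  · simp only [zero_mul]; exact h0
  · simp only [one_mul]
  · rintro _ ⟨s, hs, rfl⟩
    refine ⟨?_, ?_⟩
    · rw [← hA]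
      exact Set.mem_image_of_mem _ (hm s hs)
    · intro he
      rw [Set.mem_singleton_iff, ← h1] at he
      have h2 := hi (hm s hs) (Set.right_mem_Icc.2 zero_le_one) he
      have h3 : s * t ≤ t := mul_le_of_le_one_left ht0 hs.2
      linarith

/-- the part of the curve to the last point -/
theorem IsCurve.join_right {A : Set Pt} {p q x : Pt} (h : IsCurve A p q) (hx : x ∈ A)
    (hne : x ≠ p) : JoinedIn (A \ {p}) x q := by
  obtain ⟨γ, hc, hi, h0, h1, hA⟩ := h
  rw [← hA] at hx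
  obtain ⟨t, ⟨ht0, ht1⟩, rfl⟩ := hx
  have ht : 0 < t := lt_of_le_of_ne ht0 (fun h => hne (by rw [← h, h0]))
  have hm : ∀ s ∈ Set.Icc (0 : ℝ) 1, t ≤ t + s * (1 - t) ∧ t + s * (1 - t) ≤ 1 := fun s hs =>
    ⟨by nlinarith [hs.1, hs.2], by nlinarith [hs.1, hs.2]⟩
  have hm' : ∀ s ∈ Set.Icc (0 : ℝ) 1, t + s * (1 - t) ∈ Set.Icc (0 : ℝ) 1 := fun s hs =>
    ⟨ht0.trans (hm s hs).1, (hm s hs).2⟩
  refine JoinedIn.ofLine (f := fun s => γ (t + s * (1 - t))) ?_ ?_ ?_ ?_
  · exact hc.comp (by fun_prop) hm'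
  · simp only [zero_mul, add_zero]
  · simp only [one_mul, add_sub_cancel]; exact h1
  · rintro _ ⟨s, hs, rfl⟩
    refine ⟨?_, ?_⟩
    · rw [← hA]
      exact Set.mem_image_of_mem _ (hm' s hs)
    · intro he
      rw [Set.mem_singleton_iff, ← h0] at he
      have h2 := hi (hm' s hs) (Set.left_mem_Icc.2 zero_le_one) he
      linarith [(hm s hs).1]

theorem IsCurve.join {A : Set Pt} {p q : Pt} (h : IsCurve A p q) : JoinedIn A p q := by
  obtain ⟨γ, hc, hi, h0, h1, hA⟩ := h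
  exact JoinedIn.ofLine hc h0 h1 hA.le

theorem IsCurve.join_from {A : Set Pt} {p q x : Pt} (h : IsCurve A p q) (hx : x ∈ A) :
    JoinedIn A p x := by
  by_cases hq : x = q
  · rw [hq]; exact IsCurve.join h
  · exact (IsCurve.join_left h hx hq).mono Set.sdiff_subset

theorem IsCurve.join_to {A : Set Pt} {p q x : Pt} (h : IsCurve A p q) (hx : x ∈ A) :
    JoinedIn A x q :=
  ((IsCurve.join_from h hx).symm).trans (IsCurve.join h)

/-! ### nodes of the strands -/

variable {S : Bund}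

theorem node_cases (e : S.E) (i : Fin (S.w e)) (k : ℕ) (hk : k ≤ 2 * S.q e) (hq : 0 < S.q e) :
    (k = 0 ∧ node S e i k = .inl (S.src e)) ∨
    (∃ h : k - 1 < 2 * S.q e - 1, 0 < k ∧ k < 2 * S.q e ∧
      node S e i k = .inr ⟨e, i, ⟨k - 1, h⟩⟩) ∨
    (k = 2 * S.q e ∧ node S e i k = .inl (S.tgt e)) := by
  unfold node
  by_cases h0 : k = 0
  · left
    exact ⟨h0, if_pos h0⟩
  · right
    by_cases h1 : k - 1 < 2 * S.q e - 1
    · left
      refine ⟨h1, Nat.pos_of_ne_zero h0, by omega, ?_⟩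
      rw [if_neg h0, dif_pos h1]
    · right
      refine ⟨by omega, ?_⟩
      rw [if_neg h0, dif_neg h1]

theorem node_inj (hst : ∀ e, S.src e ≠ S.tgt e) {e : S.E} {i : Fin (S.w e)} {k l : ℕ}
    (hq : 0 < S.q e) (hk : k ≤ 2 * S.q e) (hl : l ≤ 2 * S.q e)
    (h : node S e i k = node S e i l) : k = l := by
  rcases node_cases e i k hk hq with ⟨h1, h2⟩ | ⟨h1, h1', h1'', h2⟩ | ⟨h1, h2⟩ <;>
  rcases node_cases e i l hl hq with ⟨h3, h4⟩ | ⟨h3, h3', h3'', h4⟩ | ⟨h3, h4⟩ <;>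
  rw [h2, h4] at h
  · omega
  · simp at h
  · exact absurd (Sum.inl.inj h) (hst e)
  · simp at h
  · have h5 := Sum.inr.inj h
    simp only [Sigma.mk.injEq, heq_eq_eq, Prod.mk.injEq, Fin.mk.injEq, true_and] at h5
    omega
  · simp at h
  · exact absurd (Sum.inl.inj h).symm (hst e)
  · simp at h
  · omega

/-- common nodes of different strands -/
theorem node_common {x y : Σ e : S.E, Fin (S.w e)} (hxy : x ≠ y) {k l : ℕ}
    (hqx : 0 < S.q x.1) (hqy : 0 < S.q y.1)
    (hk : k ≤ 2 * S.q x.1) (hl : l ≤ 2 * S.q y.1) (h : node S x.1 x.2 k = node S y.1 y.2 l) :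
    (k = 0 ∨ k = 2 * S.q x.1) ∧ (l = 0 ∨ l = 2 * S.q y.1) ∧
      ∃ v, (v = S.src x.1 ∨ v = S.tgt x.1) ∧ (v = S.src y.1 ∨ v = S.tgt y.1) ∧
        node S x.1 x.2 k = .inl v := by
  rcases node_cases x.1 x.2 k hk hqx with ⟨h1, h2⟩ | ⟨h1, h1', h1'', h2⟩ | ⟨h1, h2⟩ <;>
  rcases node_cases y.1 y.2 l hl hqy with ⟨h3, h4⟩ | ⟨h3, h3', h3'', h4⟩ | ⟨h3, h4⟩ <;>
  rw [h2, h4] at h
  · exact ⟨Or.inl h1, Or.inl h3, _, Or.inl rfl, Or.inl (Sum.inl.inj h), h2⟩
  · simp at h
  · exact ⟨Or.inl h1, Or.inr h3, _, Or.inl rfl, Or.inr (Sum.inl.inj h), h2⟩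
  · simp at h
  · exfalso
    apply hxy
    obtain ⟨e, i⟩ := x
    obtain ⟨f, j⟩ := y
    have h5 := Sum.inr.inj h
    simp only [Sigma.mk.injEq] at h5
    obtain ⟨h6, h7⟩ := h5
    subst h6
    simp only [heq_eq_eq, Prod.mk.injEq] at h7
    rw [h7.1]
  · simp at h
  · exact ⟨Or.inr h1, Or.inl h3, _, Or.inr rfl, Or.inl (Sum.inl.inj h), h2⟩
  · simp at h
  · exact ⟨Or.inr h1, Or.inr h3, _, Or.inr rfl, Or.inr (Sum.inl.inj h), h2⟩

/-- the `k`-th edge of a strand -/
def ed (S : Bund) (x : Σ e : S.E, Fin (S.w e)) (k : ℕ) : Sym2 (BV S) :=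
  s(node S x.1 x.2 k, node S x.1 x.2 (k + 1))

theorem adj_ed (hst : ∀ e, S.src e ≠ S.tgt e) (hq : ∀ e, 0 < S.q e)
    (x : Σ e : S.E, Fin (S.w e)) {k : ℕ} (hk : k < 2 * S.q x.1) :
    (BG S).Adj (node S x.1 x.2 k) (node S x.1 x.2 (k + 1)) := by
  unfold BG
  rw [SimpleGraph.fromRel_adj]
  refine ⟨?_, Or.inl ⟨x.1, x.2, k, hk, rfl, rfl⟩⟩
  intro h
  have := node_inj hst (hq x.1) hk.le hk h
  omega

theorem ed_mem (hst : ∀ e, S.src e ≠ S.tgt e) (hq : ∀ e, 0 < S.q e)
    (x : Σ e : S.E, Fin (S.w e)) {k : ℕ} (hk : k < 2 * S.q x.1) : ed S x k ∈ (BG S).edgeSet :=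
  adj_ed hst hq x hk

/-- edges of different strands are different -/
theorem ed_ne (hq : ∀ e, 0 < S.q e) {x y : Σ e : S.E, Fin (S.w e)} (hxy : x ≠ y) {k l : ℕ}
    (hk : k < 2 * S.q x.1) (hl : l < 2 * S.q y.1) : ed S x k ≠ ed S y l := by
  intro h
  unfold ed at h
  rw [Sym2.eq_iff] at h
  rcases h with ⟨h1, h2⟩ | ⟨h1, h2⟩
  · have a := (node_common hxy (hq _) (hq _) hk.le hl.le h1).1
    have b := (node_common hxy (hq _) (hq _) hk hl h2).1
    omega
  · have a := (node_common hxy (hq _) (hq _) hk.le hl h1).1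
    have b := (node_common hxy (hq _) (hq _) hk hl.le h2).1
    omega

/-- a strand -/
def Str (D : Drawing (BG S)) (x : Σ e : S.E, Fin (S.w e)) : Set Pt :=
  {z | ∃ k < 2 * S.q x.1, z ∈ D.curve (ed S x k)}

theorem curve_ed (hst : ∀ e, S.src e ≠ S.tgt e) (hq : ∀ e, 0 < S.q e) (D : Drawing (BG S))
    (x : Σ e : S.E, Fin (S.w e)) {k : ℕ} (hk : k < 2 * S.q x.1) :
    IsCurve (D.curve (ed S x k)) (D.pos (node S x.1 x.2 k)) (D.pos (node S x.1 x.2 (k + 1))) :=
  D.isCurve _ _ (adj_ed hst hq x hk)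

theorem node_zero (x : Σ e : S.E, Fin (S.w e)) : node S x.1 x.2 0 = .inl (S.src x.1) := rfl

theorem node_last (x : Σ e : S.E, Fin (S.w e)) (hq : 0 < S.q x.1) :
    node S x.1 x.2 (2 * S.q x.1) = .inl (S.tgt x.1) := by
  rcases node_cases x.1 x.2 (2 * S.q x.1) le_rfl hq with ⟨h1, _⟩ | ⟨_, _, h1, _⟩ | ⟨_, h2⟩
  · omega
  · omega
  · exact h2

/-- a node on an arc of the strand is an end of the arc -/
theorem node_on (hst : ∀ e, S.src e ≠ S.tgt e) (hq : ∀ e, 0 < S.q e) (D : Drawing (BG S))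
    (x : Σ e : S.E, Fin (S.w e)) {k l : ℕ} (hk : k < 2 * S.q x.1) (hl : l ≤ 2 * S.q x.1)
    (h : D.pos (node S x.1 x.2 l) ∈ D.curve (ed S x k)) : l = k ∨ l = k + 1 := by
  have h1 := D.vertex _ (ed_mem hst hq x hk) _ h
  unfold ed at h1
  rw [Sym2.mem_iff] at h1
  rcases h1 with h1 | h1
  · exact Or.inl (node_inj hst (hq _) hl hk.le h1)
  · exact Or.inr (node_inj hst (hq _) hl hk h1)

section strand

variable (hst : ∀ e, S.src e ≠ S.tgt e) (hq : ∀ e, 0 < S.q e) (D : Drawing (BG S))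
  (x : Σ e : S.E, Fin (S.w e))

include hst hq

theorem arc_sub {k : ℕ} (hk : k < 2 * S.q x.1) : D.curve (ed S x k) ⊆ Str D x :=
  fun _ hz => ⟨k, hk, hz⟩

theorem str_closed : IsClosed (Str D x) := by
  have e : Str D x = ⋃ k ∈ Finset.range (2 * S.q x.1), D.curve (ed S x k) := by
    ext z
    simp only [Str, Set.mem_ofPred_eq, Set.mem_iUnion, Finset.mem_range, exists_prop]
  rw [e]
  exact isClosed_biUnion_finset (fun k hk =>
    (IsCurve.compact (curve_ed hst hq D x (Finset.mem_range.1 hk))).isClosed)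

theorem str_src : D.pos (.inl (S.src x.1)) ∈ Str D x := by
  have h0 : 0 < 2 * S.q x.1 := by have := hq x.1; omega
  exact ⟨0, h0, IsCurve.left (curve_ed hst hq D x h0)⟩

theorem str_tgt : D.pos (.inl (S.tgt x.1)) ∈ Str D x := by
  have h0 : 2 * S.q x.1 - 1 < 2 * S.q x.1 := by have := hq x.1; omega
  refine ⟨2 * S.q x.1 - 1, h0, ?_⟩
  have h1 := IsCurve.right (curve_ed hst hq D x h0)
  have h2 : 2 * S.q x.1 - 1 + 1 = 2 * S.q x.1 := by omega
  rw [h2, node_last x (hq _)] at h1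
  exact h1

theorem str_vertex (v : S.V) (h : D.pos (.inl v) ∈ Str D x) : v = S.src x.1 ∨ v = S.tgt x.1 := by
  obtain ⟨k, hk, h⟩ := h
  have h1 := D.vertex _ (ed_mem hst hq x hk) _ h
  have key : ∀ l, l ≤ 2 * S.q x.1 → Sum.inl v = node S x.1 x.2 l → v = S.src x.1 ∨ v = S.tgt x.1 := by
    intro l hl h2
    rcases node_cases x.1 x.2 l hl (hq _) with ⟨_, h4⟩ | ⟨_, _, _, h4⟩ | ⟨_, h4⟩ <;> rw [h4] at h2
    · exact Or.inl (Sum.inl.inj h2)
    · simp at h2
    · exact Or.inr (Sum.inl.inj h2)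
  unfold ed at h1
  rw [Sym2.mem_iff] at h1
  rcases h1 with h1 | h1
  · exact key _ hk.le h1
  · exact key _ hk h1

/-- the arcs before the last one avoid the last node -/
theorem arc_avoid_last {k : ℕ} (hk : k + 1 < 2 * S.q x.1) :
    D.curve (ed S x k) ⊆ Str D x \ {D.pos (.inl (S.tgt x.1))} := by
  intro z hz
  refine ⟨arc_sub hst hq D x (by omega) hz, ?_⟩
  intro he
  rw [Set.mem_singleton_iff] at he
  rw [he, ← node_last x (hq _)] at hz
  have := node_on hst hq D x (by omega) le_rfl hz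
  omega

theorem arc_avoid_first {k : ℕ} (hk : k < 2 * S.q x.1) (h0 : 0 < k) :
    D.curve (ed S x k) ⊆ Str D x \ {D.pos (.inl (S.src x.1))} := by
  intro z hz
  refine ⟨arc_sub hst hq D x hk hz, ?_⟩
  intro he
  rw [Set.mem_singleton_iff] at he
  rw [he, ← node_zero x] at hz
  have := node_on hst hq D x hk (Nat.zero_le _) hz
  omega

theorem join_src_node {k : ℕ} (hk : k < 2 * S.q x.1) :
    JoinedIn (Str D x \ {D.pos (.inl (S.tgt x.1))}) (D.pos (.inl (S.src x.1)))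
      (D.pos (node S x.1 x.2 k)) := by
  induction k with
  | zero =>
    refine JoinedIn.refl ?_
    refine ⟨str_src hst hq D x, ?_⟩
    intro he
    have := D.pos_inj he
    exact hst _ (Sum.inl.inj this)
  | succ k ih =>
    exact (ih (by omega)).trans
      ((IsCurve.join (curve_ed hst hq D x (by omega))).mono (arc_avoid_last hst hq D x hk))

theorem join_tgt_node {k : ℕ} (hk : k < 2 * S.q x.1) :
    JoinedIn (Str D x \ {D.pos (.inl (S.src x.1))}) (D.pos (node S x.1 x.2 (2 * S.q x.1 - k)))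
      (D.pos (.inl (S.tgt x.1))) := by
  induction k with
  | zero =>
    rw [Nat.sub_zero, node_last x (hq _)]
    refine JoinedIn.refl ?_
    refine ⟨str_tgt hst hq D x, ?_⟩
    intro he
    have := D.pos_inj he
    exact hst _ (Sum.inl.inj this).symm
  | succ k ih =>
    have h1 : 2 * S.q x.1 - (k + 1) + 1 = 2 * S.q x.1 - k := by omega
    have h2 := IsCurve.join (curve_ed hst hq D x (k := 2 * S.q x.1 - (k + 1)) (by omega))
    rw [h1] at h2
    exact (h2.mono (arc_avoid_first hst hq D x (by omega) (by omega))).trans (ih (by omega))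

theorem str_join_src (z : Pt) (hz : z ∈ Str D x) (hne : z ≠ D.pos (.inl (S.tgt x.1))) :
    JoinedIn (Str D x \ {D.pos (.inl (S.tgt x.1))}) (D.pos (.inl (S.src x.1))) z := by
  obtain ⟨k, hk, hz⟩ := hz
  refine (join_src_node hst hq D x hk).trans ?_
  by_cases hk' : k + 1 < 2 * S.q x.1
  · exact (IsCurve.join_from (curve_ed hst hq D x hk) hz).mono (arc_avoid_last hst hq D x hk')
  · have h1 : k + 1 = 2 * S.q x.1 := by omega
    have h2 : node S x.1 x.2 (k + 1) = .inl (S.tgt x.1) := by rw [h1, node_last x (hq _)]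
    have h3 := curve_ed hst hq D x hk
    rw [h2] at h3
    exact (IsCurve.join_left h3 hz hne).mono (Set.sdiff_subset_sdiff_left (arc_sub hst hq D x hk))

theorem str_join_tgt (z : Pt) (hz : z ∈ Str D x) (hne : z ≠ D.pos (.inl (S.src x.1))) :
    JoinedIn (Str D x \ {D.pos (.inl (S.src x.1))}) z (D.pos (.inl (S.tgt x.1))) := by
  obtain ⟨k, hk, hz⟩ := hz
  have h1 := join_tgt_node hst hq D x (k := 2 * S.q x.1 - (k + 1)) (by omega)
  have h2 : 2 * S.q x.1 - (2 * S.q x.1 - (k + 1)) = k + 1 := by omega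
  rw [h2] at h1
  refine JoinedIn.trans ?_ h1
  by_cases hk' : 0 < k
  · exact (IsCurve.join_to (curve_ed hst hq D x hk) hz).mono (arc_avoid_first hst hq D x hk hk')
  · have h3 : k = 0 := by omega
    subst h3
    have h4 := curve_ed hst hq D x hk
    rw [node_zero x] at h4
    exact (IsCurve.join_right h4 hz hne).mono (Set.sdiff_subset_sdiff_left (arc_sub hst hq D x hk))

theorem str_join : JoinedIn (Str D x) (D.pos (.inl (S.src x.1))) (D.pos (.inl (S.tgt x.1))) := by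
  have h0 : 2 * S.q x.1 - 1 < 2 * S.q x.1 := by have := hq x.1; omega
  have h1 := (join_src_node hst hq D x h0).mono Set.sdiff_subset
  have h2 := (IsCurve.join (curve_ed hst hq D x h0)).mono (arc_sub hst hq D x h0)
  have h3 : 2 * S.q x.1 - 1 + 1 = 2 * S.q x.1 := by omega
  rw [h3, node_last x (hq _)] at h2
  exact h1.trans h2

end strand

/-! ### the greedy selection -/

/-- two strands have a common point which is not a common end -/
def Bad (D : Drawing (BG S)) (x y : Σ e : S.E, Fin (S.w e)) : Prop :=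
  ∃ z ∈ Str D x ∩ Str D y, ¬ ∃ v, (v = S.src x.1 ∨ v = S.tgt x.1) ∧
    (v = S.src y.1 ∨ v = S.tgt y.1) ∧ z = D.pos (.inl v)

theorem Bad.symm {D : Drawing (BG S)} {x y : Σ e : S.E, Fin (S.w e)} (h : Bad D x y) :
    Bad D y x := by
  obtain ⟨z, ⟨h1, h2⟩, h3⟩ := h
  refine ⟨z, ⟨h2, h1⟩, ?_⟩
  rintro ⟨v, h4, h5, h6⟩
  exact h3 ⟨v, h5, h4, h6⟩

/-- a bad pair of strands gives a crossing -/
theorem bad_crossing (hst : ∀ e, S.src e ≠ S.tgt e) (hq : ∀ e, 0 < S.q e) {D : Drawing (BG S)}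
    {x y : Σ e : S.E, Fin (S.w e)} (hxy : x ≠ y) (h : Bad D x y) :
    ∃ k < 2 * S.q x.1, ∃ l < 2 * S.q y.1, ∃ z, (ed S y l, z) ∈ D.crossings (ed S x k) := by
  obtain ⟨z, ⟨⟨k, hk, h1⟩, ⟨l, hl, h2⟩⟩, h3⟩ := h
  refine ⟨k, hk, l, hl, z, ed_mem hst hq y hl, (ed_ne hq hxy hk hl).symm, ⟨h1, h2⟩, ?_⟩
  rintro ⟨v, hv1, hv2, hv3⟩
  simp only at hv2 hv3
  have key : ∀ a b, a ≤ 2 * S.q x.1 → b ≤ 2 * S.q y.1 → v = node S x.1 x.2 a →
      v = node S y.1 y.2 b → False := by
    intro a b ha hb e1 e2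
    obtain ⟨_, _, u, hu1, hu2, hu3⟩ := node_common hxy (hq _) (hq _) ha hb (e1.symm.trans e2)
    exact h3 ⟨u, hu1, hu2, by rw [hv3, e1, hu3]⟩
  unfold ed at hv1 hv2
  rw [Sym2.mem_iff] at hv1 hv2
  rcases hv1 with hv1 | hv1 <;> rcases hv2 with hv2 | hv2
  · exact key _ _ hk.le hl.le hv1 hv2
  · exact key _ _ hk.le hl hv1 hv2
  · exact key _ _ hk hl.le hv1 hv2
  · exact key _ _ hk hl hv1 hv2

open Classical in
/-- the number of bad strands of `f` for a given strand -/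
theorem card_bad (hst : ∀ e, S.src e ≠ S.tgt e) (hq : ∀ e, 0 < S.q e) (D : Drawing (BG S)) {C : ℕ}
    (hC : ∀ e ∈ (BG S).edgeSet, (D.crossings e).encard ≤ C) (x : Σ e : S.E, Fin (S.w e)) (f : S.E)
    (hf : x.1 ≠ f) :
    (Finset.univ.filter (fun j : Fin (S.w f) => Bad D x ⟨f, j⟩)).card ≤ 2 * S.q x.1 * C := by
  let B : ℕ → Finset (Fin (S.w f)) := fun k => Finset.univ.filter (fun j =>
    ∃ l < 2 * S.q f, ∃ z, (ed S ⟨f, j⟩ l, z) ∈ D.crossings (ed S x k))
  have h1 : Finset.univ.filter (fun j : Fin (S.w f) => Bad D x ⟨f, j⟩) ⊆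
      (Finset.range (2 * S.q x.1)).biUnion B := by
    intro j hj
    rw [Finset.mem_filter] at hj
    obtain ⟨k, hk, h2⟩ := bad_crossing hst hq (fun h => hf (by rw [h])) hj.2
    rw [Finset.mem_biUnion]
    exact ⟨k, Finset.mem_range.2 hk, Finset.mem_filter.2 ⟨Finset.mem_univ _, h2⟩⟩
  refine (Finset.card_le_card h1).trans ?_
  have h2 : ∀ k ∈ Finset.range (2 * S.q x.1), (B k).card ≤ C := by
    intro k hk
    have hk' := Finset.mem_range.1 hk
    have h3 : ∀ j ∈ (B k : Set (Fin (S.w f))), ∃ c ∈ D.crossings (ed S x k),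
        ∃ l < 2 * S.q f, c.1 = ed S ⟨f, j⟩ l := by
      intro j hj
      rw [Finset.mem_coe, Finset.mem_filter] at hj
      obtain ⟨_, l, hl, z, hz⟩ := hj
      exact ⟨_, hz, l, hl, rfl⟩
    haveI : Nonempty (Sym2 (BV S) × Pt) := ⟨(ed S x k, 0)⟩
    choose! g hg1 l hl hg2 using h3
    have h4 : Set.InjOn g (B k : Set (Fin (S.w f))) := by
      intro j hj j' hj' he
      by_contra hne
      have h5 := hg2 j hj
      rw [he, hg2 j' hj'] at h5
      refine ed_ne hq (x := ⟨f, j'⟩) (y := ⟨f, j⟩) ?_ (hl j' hj') (hl j hj) h5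
      intro h6
      simp only [Sigma.mk.injEq, heq_eq_eq, true_and] at h6
      exact hne h6.symm
    have h5 := Set.encard_le_encard_of_injOn (f := g) (fun j hj => hg1 j hj) h4
    rw [Set.encard_coe_eq_coe_finsetCard] at h5
    have h6 := h5.trans (hC _ (ed_mem hst hq x hk'))
    exact_mod_cast h6
  have h3 := Finset.card_biUnion_le_card_mul _ B C h2
  rw [Finset.card_range] at h3
  exact h3

/-- module SEL -/
theorem sel : SelStmt := by
  classical
  intro S _ a Pr C hst hw hq hsymm hcard D hC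
  have key : ∀ s : Finset S.E, ∃ i : ∀ e, Fin (S.w e), ∀ e ∈ s, ∀ f ∈ s, e ≠ f → Pr e f →
      ¬ Bad D ⟨e, i e⟩ ⟨f, i f⟩ := by
    intro s
    induction s using Finset.induction_on_max_value a with
    | empty => exact ⟨fun e => ⟨0, hw e⟩, fun e he => absurd he (Finset.notMem_empty e)⟩
    | insert f s hfs hmax ih =>
      obtain ⟨i, hi⟩ := ih
      let R := s.filter (fun e => Pr e f)
      let Bf : S.E → Finset (Fin (S.w f)) := fun e =>
        Finset.univ.filter (fun j : Fin (S.w f) => Bad D ⟨e, i e⟩ ⟨f, j⟩)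
      have hne : ∀ e ∈ s, e ≠ f := fun e he h => hfs (by rw [← h]; exact he)
      have hlt : (R.biUnion Bf).card < S.w f := by
        rcases R.eq_empty_or_nonempty with hR | hR
        · rw [hR]
          simpa using hw f
        · obtain ⟨e0, he0, hm⟩ := Finset.exists_max_image R (fun e => 2 * S.q e * C) hR
          have h1 := Finset.card_biUnion_le_card_mul R Bf (2 * S.q e0 * C) (by
            intro e he
            have he' := Finset.mem_filter.1 he
            exact (card_bad hst hq D hC ⟨e, i e⟩ f (hne e he'.1)).trans (hm e he))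
          have he0' := Finset.mem_filter.1 he0
          refine lt_of_le_of_lt (h1.trans (Nat.mul_le_mul_right _ ?_))
            (hcard e0 f (hne e0 he0'.1) he0'.2 (hmax e0 he0'.1))
          exact Finset.card_le_univ R
      obtain ⟨j, hj⟩ : ∃ j, j ∉ R.biUnion Bf := by
        by_contra hcon
        push Not at hcon
        have h2 : (Finset.univ : Finset (Fin (S.w f))) ⊆ R.biUnion Bf := fun j _ => hcon j
        have h3 := Finset.card_le_card h2
        rw [Finset.card_univ, Fintype.card_fin] at h3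
        omega
      have hgood : ∀ e ∈ s, Pr e f → ¬ Bad D ⟨e, i e⟩ ⟨f, j⟩ := by
        intro e he hp hb
        exact hj (Finset.mem_biUnion.2 ⟨e, Finset.mem_filter.2 ⟨he, hp⟩,
          Finset.mem_filter.2 ⟨Finset.mem_univ _, hb⟩⟩)
      refine ⟨Function.update i f j, ?_⟩
      intro e he e' he' hee hp
      rcases Finset.mem_insert.1 he with h1 | h1 <;>
      rcases Finset.mem_insert.1 he' with h2 | h2
      · exact absurd (h1.trans h2.symm) hee
      · subst h1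
        rw [Function.update_self, Function.update_of_ne (hne e' h2)]
        exact fun hb => hgood e' h2 (hsymm _ _ hp) hb.symm
      · subst h2
        rw [Function.update_self, Function.update_of_ne (hne e h1)]
        exact hgood e h1 hp
      · rw [Function.update_of_ne (hne e h1), Function.update_of_ne (hne e' h2)]
        exact hi e h1 e' h2 hee hp
  obtain ⟨i, hi⟩ := key Finset.univ
  refine ⟨fun e => Str D ⟨e, i e⟩, ?_, ?_, ?_, ?_, ?_, ?_, ?_, ?_, ?_⟩
  · intro v v' h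
    exact Sum.inl.inj (D.pos_inj h)
  · exact fun e => str_closed hst hq D ⟨e, i e⟩
  · exact fun e => str_src hst hq D ⟨e, i e⟩
  · exact fun e => str_tgt hst hq D ⟨e, i e⟩
  · exact fun e v h => str_vertex hst hq D ⟨e, i e⟩ v h
  · exact fun e z hz hne => str_join_src hst hq D ⟨e, i e⟩ z hz hne
  · exact fun e z hz hne => str_join_tgt hst hq D ⟨e, i e⟩ z hz hne
  · exact fun e => str_join hst hq D ⟨e, i e⟩
  · intro e f hef hp z hz
    by_contra hcon
    exact hi e (Finset.mem_univ _) f (Finset.mem_univ _) hef hp ⟨z, hz, hcon⟩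

end Pool.Agent.LCR.H91
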