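import Pool.Agent.Helper91_LCR.Sel
import Pool.Agent.Helper91_LCR.Seg

/-!
# Module SUB: subdivision of the half-strands
-/

namespace Pool.Agent.LCR.H91

open Pool.Agent.LCR

/-! ### subdivisions of an interval -/

theorem exists_subdiv (q : ℕ) (hq : 1 ≤ q) : ∀ (a b : ℝ), a < b → ∀ T : Finset ℝ,
    (∀ t ∈ T, a < t ∧ t < b) → T.card ≤ q →
    ∃ s : ℕ → ℝ, s 0 = a ∧ s q = b ∧ (∀ k < q, s k < s (k + 1)) ∧ (∀ k ≤ q, s k ∉ T) ∧
      ∀ k < q, ∀ t ∈ T, ∀ t' ∈ T, s k ≤ t → t ≤ s (k + 1) → s k ≤ t' → t' ≤ s (k + 1) → t = t' := by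
  induction q, hq using Nat.le_induction with
  | base =>
    intro a b hab T hT hc
    refine ⟨fun k => if k = 0 then a else b, rfl, rfl, ?_, ?_, ?_⟩
    · intro k hk
      have : k = 0 := by omega
      subst this
      simpa using hab
    · intro k hk h
      have h2 : k = 0 ∨ k = 1 := by omega
      rcases h2 with rfl | rfl
      · simp only [if_true] at h
        exact lt_irrefl _ (hT _ h).1
      · simp only [one_ne_zero, if_false] at h
        exact lt_irrefl _ (hT _ h).2
    · intro k _ t ht t' ht' _ _ _ _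
      exact Finset.card_le_one.1 hc t ht t' ht'
  | succ q hq ih =>
    intro a b hab T hT hc
    -- choose the first point
    obtain ⟨c, hac, hcb, hcT, hlow, hcard⟩ : ∃ c, a < c ∧ c < b ∧ c ∉ T ∧
        (∀ t ∈ T, ∀ t' ∈ T, t ≤ c → t' ≤ c → t = t') ∧ (T.filter (fun t => c < t)).card ≤ q := by
      rcases T.eq_empty_or_nonempty with hT0 | hT0
      · refine ⟨(a + b) / 2, by linarith, by linarith, ?_, ?_, ?_⟩
        · rw [hT0]; exact Finset.notMem_empty _
        · intro t ht
          rw [hT0] at ht
          exact absurd ht (Finset.notMem_empty _)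
        · rw [hT0]; simp
      · set t0 := T.min' hT0 with ht0
        have ht0m : t0 ∈ T := T.min'_mem hT0
        set T' := insert b (T.erase t0) with hT'
        have hne : T'.Nonempty := ⟨b, Finset.mem_insert_self _ _⟩
        set t1 := T'.min' hne with ht1
        have ht01 : t0 < t1 := by
          have h1 := T'.min'_mem hne
          rw [← ht1, hT', Finset.mem_insert] at h1
          rcases h1 with h1 | h1
          · rw [h1]; exact (hT t0 ht0m).2
          · have h2 := Finset.mem_of_mem_erase h1
            have h3 := Finset.ne_of_mem_erase h1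
            exact lt_of_le_of_ne (T.min'_le _ h2) h3.symm
        have ht1b : t1 ≤ b := T'.min'_le _ (Finset.mem_insert_self _ _)
        have hbig : ∀ t ∈ T, t ≠ t0 → t1 ≤ t := fun t ht hne' =>
          T'.min'_le _ (Finset.mem_insert_of_mem (Finset.mem_erase.2 ⟨hne', ht⟩))
        have ha : a < t0 := (hT t0 ht0m).1
        refine ⟨(t0 + t1) / 2, by linarith, by linarith, ?_, ?_, ?_⟩
        · intro h
          by_cases he : (t0 + t1) / 2 = t0
          · linarith
          · have := hbig _ h he
            linarith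
        · intro t ht t' ht' h1 h2
          have e1 : t = t0 := by
            by_contra hne'
            have := hbig t ht hne'
            linarith
          have e2 : t' = t0 := by
            by_contra hne'
            have := hbig t' ht' hne'
            linarith
          rw [e1, e2]
        · have h1 : T.filter (fun t => (t0 + t1) / 2 < t) ⊆ T.erase t0 := by
            intro t ht
            rw [Finset.mem_filter] at ht
            refine Finset.mem_erase.2 ⟨?_, ht.1⟩
            rintro rfl
            linarith [ht.2]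
          have h2 := Finset.card_le_card h1
          rw [Finset.card_erase_of_mem ht0m] at h2
          omega
    obtain ⟨s, h0, h1, h2, h3, h4⟩ := ih c b hcb (T.filter (fun t => c < t)) (by
      intro t ht
      rw [Finset.mem_filter] at ht
      exact ⟨ht.2, (hT t ht.1).2⟩) hcard
    have hge : ∀ k ≤ q, c ≤ s k := by
      intro k
      induction k with
      | zero => intro _; rw [h0]
      | succ k ihk =>
        intro hk
        exact (ihk (by omega)).trans (h2 k (by omega)).le
    refine ⟨fun k => if k = 0 then a else s (k - 1), by simp, by simpa using h1, ?_, ?_, ?_⟩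
    · intro k hk
      rcases Nat.eq_zero_or_pos k with rfl | hk0
      · simpa [h0] using hac
      · have hk1 : k ≠ 0 := by omega
        simp only [if_neg hk1, Nat.add_sub_cancel, Nat.succ_ne_zero, if_false]
        have := h2 (k - 1) (by omega)
        rwa [Nat.sub_add_cancel hk0] at this
    · intro k hk
      rcases Nat.eq_zero_or_pos k with rfl | hk0
      · simp only [if_true]
        exact fun h => lt_irrefl _ (hT _ h).1
      · have hk1 : k ≠ 0 := by omega
        simp only [if_neg hk1]
        intro h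
        have h5 := h3 (k - 1) (by omega)
        apply h5
        rw [Finset.mem_filter]
        refine ⟨h, ?_⟩
        refine lt_of_le_of_ne (hge (k - 1) (by omega)) ?_
        intro he
        rw [← he] at h
        exact hcT h
    · intro k hk t ht t' ht' l1 l2 l3 l4
      rcases Nat.eq_zero_or_pos k with rfl | hk0
      · simp only [zero_add, one_ne_zero, if_false, Nat.sub_self, h0] at l2 l4
        exact hlow t ht t' ht' l2 l4
      · have hk1 : k ≠ 0 := by omega
        simp only [if_neg hk1, Nat.add_sub_cancel, Nat.succ_ne_zero, if_false] at l1 l2 l3 l4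
        have hc1 : c < t := lt_of_le_of_ne ((hge _ (by omega)).trans l1) (fun he => hcT (by rw [he]; exact ht))
        have hc2 : c < t' := lt_of_le_of_ne ((hge _ (by omega)).trans l3) (fun he => hcT (by rw [he]; exact ht'))
        have e1 : k - 1 + 1 = k := Nat.sub_add_cancel hk0
        refine h4 (k - 1) (by omega) t (Finset.mem_filter.2 ⟨ht, hc1⟩) t' (Finset.mem_filter.2 ⟨ht', hc2⟩)
          l1 (by rw [e1]; exact l2) l3 (by rw [e1]; exact l4)

/-! ### generic positions -/

variable {S : Bund} {P : MV S → Pt}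

/-- the point with parameter `t` of a half-strand -/
def LL (P : MV S → Pt) (h : HS S) (t : ℝ) : Pt :=
  P (hsrc S h) + t • (P (htgt S h) - P (hsrc S h))

theorem LL_zero (P : MV S → Pt) (h : HS S) : LL P h 0 = P (hsrc S h) := by simp [LL]
theorem LL_one (P : MV S → Pt) (h : HS S) : LL P h 1 = P (htgt S h) := by simp [LL]

theorem mem_hseg {h : HS S} {z : Pt} : z ∈ hseg S P h ↔ ∃ t, 0 ≤ t ∧ t ≤ 1 ∧ LL P h t = z := by
  unfold hseg
  rw [segment_eq_image']
  constructor
  · rintro ⟨t, ⟨h0, h1⟩, rfl⟩
    exact ⟨t, h0, h1, rfl⟩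
  · rintro ⟨t, h0, h1, rfl⟩
    exact ⟨t, ⟨h0, h1⟩, rfl⟩

theorem LL_mem {h : HS S} {t : ℝ} (h0 : 0 ≤ t) (h1 : t ≤ 1) : LL P h t ∈ hseg S P h :=
  mem_hseg.2 ⟨t, h0, h1, rfl⟩

/-- the template end of a half-strand -/
def tv (h : HS S) : S.V := if h.2 then S.tgt h.1.1 else S.src h.1.1

theorem hsrc_ne_htgt (h : HS S) : hsrc S h ≠ htgt S h := by
  obtain ⟨x, b⟩ := h
  cases b <;> simp [hsrc, htgt]

theorem apart_iff (h h' : HS S) : Apart S h h' ↔ tv h ≠ tv h' ∧ h.1 ≠ h'.1 := by
  obtain ⟨x, b⟩ := h
  obtain ⟨y, b'⟩ := h'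
  cases b <;> cases b' <;> simp [Apart, hsrc, htgt, tv] <;> tauto

theorem Apart.symm' {h h' : HS S} (ha : Apart S h h') : Apart S h' h := by
  rw [apart_iff] at ha ⊢
  exact ⟨ha.1.symm, ha.2.symm⟩

theorem hseg_eq (h : HS S) : hseg S P h = segment ℝ (P (.inl (tv h))) (P (.inr h.1)) := by
  obtain ⟨x, b⟩ := h
  cases b
  · simp [hseg, hsrc, htgt, tv]
  · simp only [hseg, hsrc, htgt, tv, if_true]
    exact segment_symm ℝ _ _

/-- the ends of a half-strand -/
theorem ends_iff (h : HS S) (c : MV S) :
    (c = hsrc S h ∨ c = htgt S h) ↔ (c = .inl (tv h) ∨ c = .inr h.1) := by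
  obtain ⟨x, b⟩ := h
  cases b <;> simp [hsrc, htgt, tv]
  tauto

theorem ori_param (p q : Pt) (t : ℝ) : ori p q (p + t • (q - p)) = 0 := by
  unfold ori
  simp only [Prod.fst_add, Prod.snd_add, Prod.smul_fst, Prod.smul_snd, Prod.fst_sub, Prod.snd_sub,
    smul_eq_mul]
  ring

theorem gen_mem (hP : Generic P) {a b c : MV S} (hab : a ≠ b)
    (h : P c ∈ segment ℝ (P a) (P b)) : c = a ∨ c = b := by
  by_contra hcon
  push Not at hcon
  rw [segment_eq_image'] at h
  obtain ⟨t, _, ht⟩ := h
  apply hP.ori_ne a b c hab hcon.2.symm hcon.1.symm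
  rw [← ht]
  exact ori_param _ _ _

theorem gen_two (hP : Generic P) {a b c : MV S} (hab : a ≠ b) (hac : a ≠ c) (hbc : b ≠ c) {z : Pt}
    (h1 : z ∈ segment ℝ (P a) (P b)) (h2 : z ∈ segment ℝ (P a) (P c)) : z = P a := by
  rw [segment_eq_image'] at h1 h2
  obtain ⟨t, _, ht⟩ := h1
  obtain ⟨t', _, ht'⟩ := h2
  simp only at ht ht'
  have e : P a + t • (P b - P a) = P a + t' • (P c - P a) := by rw [ht, ht']
  have e1 := congrArg Prod.fst e
  have e2 := congrArg Prod.snd e
  simp only [Prod.fst_add, Prod.snd_add, Prod.smul_fst, Prod.smul_snd, Prod.fst_sub, Prod.snd_sub,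
    smul_eq_mul] at e1 e2
  have h3 : t * ori (P a) (P b) (P c) = 0 := by
    unfold ori
    linear_combination ((P c).2 - (P a).2) * e1 - ((P c).1 - (P a).1) * e2
  have h4 : t = 0 := by
    rcases mul_eq_zero.1 h3 with h5 | h5
    · exact h5
    · exact absurd h5 (hP.ori_ne a b c hab hbc hac)
  rw [← ht, h4]
  simp

/-- half-strands which are not apart meet only in a common vertex -/
theorem not_apart_meet (hst : ∀ e, S.src e ≠ S.tgt e) (hP : Generic P) {h h' : HS S} (hne : h ≠ h')
    (ha : ¬ Apart S h h') {z : Pt} (h1 : z ∈ hseg S P h) (h2 : z ∈ hseg S P h') :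
    ∃ c, (c = hsrc S h ∨ c = htgt S h) ∧ (c = hsrc S h' ∨ c = htgt S h') ∧ z = P c := by
  rw [hseg_eq] at h1 h2
  rw [apart_iff] at ha
  by_cases hx : h.1 = h'.1
  · have htv : tv h ≠ tv h' := by
      obtain ⟨x, b⟩ := h
      obtain ⟨y, b'⟩ := h'
      simp only at hx
      subst hx
      cases b <;> cases b' <;> simp only [tv, Bool.false_eq_true, if_false, if_true] at hne ⊢
      · exact absurd rfl hne
      · exact hst _
      · exact (hst _).symm
      · exact absurd rfl hne
    refine ⟨.inr h.1, ?_, ?_, ?_⟩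
    · rw [ends_iff]; exact Or.inr rfl
    · rw [ends_iff, hx]; exact Or.inr rfl
    · rw [← hx, segment_symm] at h2
      rw [segment_symm] at h1
      refine gen_two hP ?_ ?_ ?_ h1 h2
      · simp
      · simp
      · intro h3
        exact htv (Sum.inl.inj h3)
  · have htv : tv h = tv h' := by
      by_contra hcon
      exact ha ⟨hcon, hx⟩
    refine ⟨.inl (tv h), ?_, ?_, ?_⟩
    · rw [ends_iff]; exact Or.inl rfl
    · rw [ends_iff, htv]; exact Or.inl rfl
    · rw [← htv] at h2
      refine gen_two hP ?_ ?_ ?_ h1 h2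
      · simp
      · simp
      · intro h3
        exact hx (Sum.inr.inj h3)

/-- half-strands which are apart and meet are transversal -/
theorem apart_cr (hP : Generic P) {h h' : HS S} (ha : Apart S h h') {t t' : ℝ}
    (he : LL P h t = LL P h' t') :
    cr (P (htgt S h) - P (hsrc S h)) (P (htgt S h') - P (hsrc S h')) ≠ 0 := by
  intro h0
  obtain ⟨a1, a2, a3, a4⟩ := ha
  apply hP.ori_ne (hsrc S h) (htgt S h) (hsrc S h') (hsrc_ne_htgt h) a3 a1
  unfold LL at he
  have e1 := congrArg Prod.fst he
  have e2 := congrArg Prod.snd he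
  simp only [Prod.fst_add, Prod.snd_add, Prod.smul_fst, Prod.smul_snd, Prod.fst_sub, Prod.snd_sub,
    smul_eq_mul] at e1 e2
  unfold cr at h0
  simp only [Prod.fst_sub, Prod.snd_sub] at h0
  unfold ori
  linear_combination (-((P (htgt S h)).2 - (P (hsrc S h)).2)) * (-e1) +
    ((P (htgt S h)).1 - (P (hsrc S h)).1) * (-e2) - t' * h0

theorem apart_unique (hP : Generic P) {h h' : HS S} (ha : Apart S h h') {t t' u u' : ℝ}
    (he : LL P h t = LL P h' t') (hu : LL P h u = LL P h' u') : t = u := by
  have h0 := apart_cr hP ha he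
  unfold LL at he hu
  have e1 := congrArg Prod.fst he
  have e2 := congrArg Prod.snd he
  have e3 := congrArg Prod.fst hu
  have e4 := congrArg Prod.snd hu
  simp only [Prod.fst_add, Prod.snd_add, Prod.smul_fst, Prod.smul_snd, Prod.fst_sub, Prod.snd_sub,
    smul_eq_mul] at e1 e2 e3 e4
  have h5 : (t - u) * cr (P (htgt S h) - P (hsrc S h)) (P (htgt S h') - P (hsrc S h')) = 0 := by
    unfold cr
    simp only [Prod.fst_sub, Prod.snd_sub]
    linear_combination ((P (htgt S h')).2 - (P (hsrc S h')).2) * (e1 - e3) -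
      ((P (htgt S h')).1 - (P (hsrc S h')).1) * (e2 - e4)
  rcases mul_eq_zero.1 h5 with h6 | h6
  · linarith
  · exact absurd h6 h0

theorem LL_inj (hP : Generic P) (h : HS S) {t u : ℝ} (he : LL P h t = LL P h u) : t = u := by
  unfold LL at he
  have h1 : (t - u) • (P (htgt S h) - P (hsrc S h)) = 0 := by
    rw [sub_smul, sub_eq_zero]
    exact add_left_cancel he
  rcases smul_eq_zero.1 h1 with h2 | h2
  · linarith
  · exact absurd (hP.inj (sub_eq_zero.1 h2)).symm (hsrc_ne_htgt h)

theorem vertex_on (hP : Generic P) {h : HS S} {c : MV S} (hc : P c ∈ hseg S P h) :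
    c = hsrc S h ∨ c = htgt S h := by
  rw [ends_iff]
  rw [hseg_eq] at hc
  exact gen_mem hP (by simp) hc

/-- two half-strands crossing a third one at the same point are equal -/
theorem cross_unique (hst : ∀ e, S.src e ≠ S.tgt e) (hP : Generic P) {h h1 h2 : HS S}
    (a1 : Apart S h h1) (a2 : Apart S h h2) {z : Pt} (hz : z ∈ hseg S P h)
    (hz1 : z ∈ hseg S P h1) (hz2 : z ∈ hseg S P h2) : h1 = h2 := by
  by_contra hne
  by_cases ha : Apart S h1 h2
  · have b1 := (apart_iff _ _).1 a1
    have b2 := (apart_iff _ _).1 a2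
    have b3 := (apart_iff _ _).1 ha
    have hc := hP.conc ![.inl (tv h), .inr h.1, .inl (tv h1), .inr h1.1, .inl (tv h2), .inr h2.1] (by
      intro i j hij
      fin_cases i <;> fin_cases j <;> simp at hij ⊢
      · exact b1.1 hij
      · exact b2.1 hij
      · exact b1.2 hij
      · exact b2.2 hij
      · exact b1.1 hij.symm
      · exact b3.1 hij
      · exact b1.2 hij.symm
      · exact b3.2 hij
      · exact b2.1 hij.symm
      · exact b3.1 hij.symm
      · exact b2.2 hij.symm
      · exact b3.2 hij.symm)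
    rw [hseg_eq] at hz hz1 hz2
    have hmem : z ∈ (∅ : Set Pt) := by
      rw [← hc]
      exact ⟨⟨hz, hz1⟩, hz2⟩
    exact hmem
  · obtain ⟨c, hc1, _, rfl⟩ := not_apart_meet hst hP hne ha hz1 hz2
    have hc := vertex_on hP hz
    obtain ⟨x1, x2, x3, x4⟩ := a1
    rcases hc with rfl | rfl <;> rcases hc1 with h3 | h3
    · exact x1 h3
    · exact x2 h3
    · exact x3 h3
    · exact x4 h3

end Pool.Agent.LCR.H91
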