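import Pool.Agent.Helper91_LCR.Sub

/-!
# Module SUB: subdivision of the half-strands, second part
-/

namespace Pool.Agent.LCR.H91

open Pool.Agent.LCR

variable {S : Bund} {P : MV S → Pt}

/-- the crossing parameters of a half-strand -/
def TT (P : MV S → Pt) (h : HS S) : Set ℝ :=
  {t | 0 ≤ t ∧ t ≤ 1 ∧ ∃ h', Apart S h h' ∧ LL P h t ∈ hseg S P h'}

theorem TT_open (hP : Generic P) {h : HS S} {t : ℝ} (ht : t ∈ TT P h) : 0 < t ∧ t < 1 := by
  obtain ⟨h0, h1, h', ha, hm⟩ := ht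
  obtain ⟨a1, a2, a3, a4⟩ := ha
  constructor
  · refine lt_of_le_of_ne h0 ?_
    rintro rfl
    rw [LL_zero] at hm
    rcases vertex_on hP hm with h3 | h3
    · exact a1 h3
    · exact a2 h3
  · refine lt_of_le_of_ne h1 ?_
    rintro rfl
    rw [LL_one] at hm
    rcases vertex_on hP hm with h3 | h3
    · exact a3 h3
    · exact a4 h3

theorem TT_card (hP : Generic P) {h : HS S} {q : ℕ} (hq : {h' | Crosses S P h h'}.encard ≤ q) :
    (TT P h).encard ≤ q := by
  refine le_trans ?_ hq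
  have hne : Nonempty (HS S) := ⟨h⟩
  have h1 : ∀ t ∈ TT P h, ∃ h', Crosses S P h h' ∧ LL P h t ∈ hseg S P h' := by
    rintro t ⟨h0, h1, h', ha, hm⟩
    exact ⟨h', ⟨ha, ⟨_, LL_mem h0 h1, hm⟩⟩, hm⟩
  choose! g hg1 hg2 using h1
  refine Set.encard_le_encard_of_injOn (f := g) (fun t ht => hg1 t ht) ?_
  intro t ht u hu he
  obtain ⟨t', _, _, ht'⟩ := mem_hseg.1 (hg2 t ht)
  obtain ⟨u', _, _, hu'⟩ := mem_hseg.1 (hg2 u hu)
  rw [he] at ht'
  exact apart_unique hP (hg1 u hu).1 ht'.symm hu'.symm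

/-- the data of a subdivision of all half-strands -/
structure SD (P : MV S → Pt) (s : HS S → ℕ → ℝ) : Prop where
  zero : ∀ h, s h 0 = 0
  one : ∀ h, s h (S.q h.1.1) = 1
  mono : ∀ h, ∀ k < S.q h.1.1, s h k < s h (k + 1)
  notT : ∀ h, ∀ k ≤ S.q h.1.1, s h k ∉ TT P h
  uniq : ∀ h, ∀ k < S.q h.1.1, ∀ t ∈ TT P h, ∀ t' ∈ TT P h, s h k ≤ t → t ≤ s h (k + 1) →
    s h k ≤ t' → t' ≤ s h (k + 1) → t = t'

theorem exists_SD (hq : ∀ e, 0 < S.q e) (hP : Generic P)
    (hc : ∀ h : HS S, {h' | Crosses S P h h'}.encard ≤ S.q h.1.1) : ∃ s, SD P s := by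
  have h1 : ∀ h : HS S, ∃ s : ℕ → ℝ, s 0 = 0 ∧ s (S.q h.1.1) = 1 ∧
      (∀ k < S.q h.1.1, s k < s (k + 1)) ∧ (∀ k ≤ S.q h.1.1, s k ∉ TT P h) ∧
      ∀ k < S.q h.1.1, ∀ t ∈ TT P h, ∀ t' ∈ TT P h, s k ≤ t → t ≤ s (k + 1) →
        s k ≤ t' → t' ≤ s (k + 1) → t = t' := by
    intro h
    have hcard := TT_card hP (hc h)
    have hfin : (TT P h).Finite := Set.finite_of_encard_le_coe hcard
    have hcard' : hfin.toFinset.card ≤ S.q h.1.1 := by
      rw [hfin.encard_eq_coe_toFinset_card] at hcard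
      exact_mod_cast hcard
    obtain ⟨s, a1, a2, a3, a4, a5⟩ := exists_subdiv (S.q h.1.1) (hq _) 0 1 one_pos hfin.toFinset
      (fun t ht => TT_open hP (hfin.mem_toFinset.1 ht)) hcard'
    refine ⟨s, a1, a2, a3, fun k hk h => a4 k hk (hfin.mem_toFinset.2 h), ?_⟩
    intro k hk t ht t' ht'
    exact a5 k hk t (hfin.mem_toFinset.2 ht) t' (hfin.mem_toFinset.2 ht')
  choose s hs using h1
  exact ⟨s, fun h => (hs h).1, fun h => (hs h).2.1, fun h => (hs h).2.2.1, fun h => (hs h).2.2.2.1,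
    fun h => (hs h).2.2.2.2⟩

section

variable {s : HS S → ℕ → ℝ} (hs : SD P s)

include hs

theorem SD.lt {h : HS S} {k l : ℕ} (hkl : k < l) (hl : l ≤ S.q h.1.1) : s h k < s h l := by
  induction l, hkl using Nat.le_induction with
  | base => exact hs.mono h k (by omega)
  | succ l hkl ih => exact (ih (by omega)).trans (hs.mono h l (by omega))

theorem SD.le {h : HS S} {k l : ℕ} (hkl : k ≤ l) (hl : l ≤ S.q h.1.1) : s h k ≤ s h l := by
  rcases eq_or_lt_of_le hkl with rfl | h1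
  · exact le_rfl
  · exact (hs.lt h1 hl).le

theorem SD.nonneg {h : HS S} {k : ℕ} (hk : k ≤ S.q h.1.1) : 0 ≤ s h k := by
  rw [← hs.zero h]
  exact hs.le (Nat.zero_le _) hk

theorem SD.le_one {h : HS S} {k : ℕ} (hk : k ≤ S.q h.1.1) : s h k ≤ 1 := by
  rw [← hs.one h]
  exact hs.le hk le_rfl

/-- an inner node of a half-strand is on no other half-strand -/
theorem inner_on (hst : ∀ e, S.src e ≠ S.tgt e) (hP : Generic P) {h h' : HS S} {k : ℕ} (hk0 : 0 < k)
    (hk : k < S.q h.1.1) (hm : LL P h (s h k) ∈ hseg S P h') : h = h' := by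
  by_contra hne
  have m1 := LL_mem (P := P) (h := h) (hs.nonneg hk.le) (hs.le_one hk.le)
  by_cases ha : Apart S h h'
  · exact hs.notT h k hk.le ⟨hs.nonneg hk.le, hs.le_one hk.le, h', ha, hm⟩
  · obtain ⟨c, hc1, _, hc3⟩ := not_apart_meet hst hP hne ha m1 hm
    have l1 : s h 0 < s h k := hs.lt hk0 hk.le
    have l2 : s h k < s h (S.q h.1.1) := hs.lt hk le_rfl
    rw [hs.zero] at l1
    rw [hs.one] at l2
    rcases hc1 with rfl | rfl
    · rw [← LL_zero P h] at hc3
      have := LL_inj hP h hc3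
      linarith
    · rw [← LL_one P h] at hc3
      have := LL_inj hP h hc3
      linarith

end

/-! ### positions -/

/-- the nodes of a half-strand -/
def nd (h : HS S) (k : ℕ) : BV S :=
  if h.2 then node S h.1.1 h.1.2 (S.q h.1.1 + k) else node S h.1.1 h.1.2 k

/-- the vertex of the bundle graph which corresponds to a vertex of the drawing -/
def mv : MV S → BV S
  | .inl v => .inl v
  | .inr x => node S x.1 x.2 (S.q x.1)

/-- positions of the vertices of the bundle graph -/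
noncomputable def QQ (P : MV S → Pt) (s : HS S → ℕ → ℝ) : BV S → Pt
  | .inl v => P (.inl v)
  | .inr x => if x.2.2.val + 1 ≤ S.q x.1 then LL P (⟨x.1, x.2.1⟩, false) (s (⟨x.1, x.2.1⟩, false) (x.2.2.val + 1))
      else LL P (⟨x.1, x.2.1⟩, true) (s (⟨x.1, x.2.1⟩, true) (x.2.2.val + 1 - S.q x.1))

theorem nd_zero (h : HS S) : nd h 0 = mv (hsrc S h) := by
  obtain ⟨x, b⟩ := h
  cases b
  · simp [nd, hsrc, mv, node]
  · simp [nd, hsrc, mv]

theorem nd_last (hq : ∀ e, 0 < S.q e) (h : HS S) : nd h (S.q h.1.1) = mv (htgt S h) := by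
  obtain ⟨x, b⟩ := h
  cases b
  · simp [nd, htgt, mv]
  · simp only [nd, htgt, mv, if_true]
    have h2 : S.q x.1 + S.q x.1 = 2 * S.q x.1 := by ring
    rw [h2, node_last x (hq _)]

theorem QQ_node (hq : ∀ e, 0 < S.q e) {s : HS S → ℕ → ℝ} (hs : SD P s) (x : Σ e : S.E, Fin (S.w e))
    {k : ℕ} (hk : k ≤ 2 * S.q x.1) :
    QQ P s (node S x.1 x.2 k) = if k ≤ S.q x.1 then LL P (x, false) (s (x, false) k)
      else LL P (x, true) (s (x, true) (k - S.q x.1)) := by
  rcases node_cases x.1 x.2 k hk (hq _) with ⟨h1, h2⟩ | ⟨h1, h1', h1'', h2⟩ | ⟨h1, h2⟩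
  · rw [h2]
    subst h1
    rw [if_pos (Nat.zero_le _), hs.zero, LL_zero]
    simp [QQ, hsrc]
  · rw [h2]
    have h3 : k - 1 + 1 = k := by omega
    simp only [QQ, h3]
  · rw [h2]
    have h0 := hq x.1
    rw [if_neg (by omega)]
    have h3 : k - S.q x.1 = S.q x.1 := by omega
    have h4 := hs.one (x, true)
    simp only at h4
    rw [h3, h4, LL_one]
    simp [QQ, htgt]

theorem QQ_nd (hq : ∀ e, 0 < S.q e) {s : HS S → ℕ → ℝ} (hs : SD P s) (h : HS S) {k : ℕ}
    (hk : k ≤ S.q h.1.1) : QQ P s (nd h k) = LL P h (s h k) := by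
  obtain ⟨x, b⟩ := h
  simp only at hk
  cases b
  · simp only [nd, Bool.false_eq_true, if_false]
    rw [QQ_node hq hs x (by omega), if_pos hk]
  · simp only [nd, if_true]
    rw [QQ_node hq hs x (by omega)]
    by_cases hk0 : k = 0
    · subst hk0
      have h4 := hs.one (x, false)
      simp only at h4
      rw [add_zero, if_pos le_rfl, h4, LL_one, hs.zero, LL_zero]
      simp [hsrc, htgt]
    · rw [if_neg (by omega), Nat.add_sub_cancel_left]

theorem QQ_mv (hq : ∀ e, 0 < S.q e) {s : HS S → ℕ → ℝ} (hs : SD P s) (c : MV S) :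
    QQ P s (mv c) = P c := by
  cases c with
  | inl v => rfl
  | inr x =>
    have h1 := QQ_nd hq hs (x, true) (k := 0) (Nat.zero_le _)
    rw [nd_zero, hs.zero, LL_zero] at h1
    simpa [hsrc] using h1

/-- the vertices -/
theorem vertex_cases (w : BV S) : (∃ c, w = mv c) ∨
    ∃ (h : HS S) (k : ℕ), 0 < k ∧ k < S.q h.1.1 ∧ w = nd h k := by
  cases w with
  | inl v => exact Or.inl ⟨.inl v, rfl⟩
  | inr x =>
    obtain ⟨e, i, k⟩ := x
    have hk := k.isLt
    have hn : (Sum.inr ⟨e, i, k⟩ : BV S) = node S e i (k.val + 1) := by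
      unfold node
      rw [if_neg (by omega), dif_pos (by omega)]
      rfl
    rw [hn]
    rcases lt_trichotomy (k.val + 1) (S.q e) with h1 | h1 | h1
    · right
      exact ⟨(⟨e, i⟩, false), k.val + 1, by omega, h1, by simp [nd]⟩
    · left
      refine ⟨.inr ⟨e, i⟩, ?_⟩
      simp only [mv]
      rw [h1]
    · right
      refine ⟨(⟨e, i⟩, true), k.val + 1 - S.q e, by omega, ?_, ?_⟩
      · simp only
        omega
      · simp only [nd, if_true]
        rw [show S.q e + (k.val + 1 - S.q e) = k.val + 1 by omega]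

/-- the edges -/
theorem edge_cases {u v : BV S} (h : (BG S).Adj u v) : ∃ (h : HS S) (k : ℕ), k < S.q h.1.1 ∧
    ((u = nd h k ∧ v = nd h (k + 1)) ∨ (v = nd h k ∧ u = nd h (k + 1))) := by
  have key : ∀ (e : S.E) (i : Fin (S.w e)) (k : ℕ), k < 2 * S.q e →
      ∃ (h : HS S) (l : ℕ), l < S.q h.1.1 ∧ node S e i k = nd h l ∧
        node S e i (k + 1) = nd h (l + 1) := by
    intro e i k hk
    by_cases h1 : k < S.q e
    · exact ⟨(⟨e, i⟩, false), k, h1, by simp [nd], by simp [nd]⟩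
    · refine ⟨(⟨e, i⟩, true), k - S.q e, ?_, ?_, ?_⟩
      · simp only
        omega
      · simp only [nd, if_true]
        rw [show S.q e + (k - S.q e) = k by omega]
      · simp only [nd, if_true]
        rw [show S.q e + (k - S.q e + 1) = k + 1 by omega]
  unfold BG at h
  rw [SimpleGraph.fromRel_adj] at h
  rcases h.2 with ⟨e, i, k, hk, rfl, rfl⟩ | ⟨e, i, k, hk, rfl, rfl⟩
  · obtain ⟨h, l, hl, h1, h2⟩ := key e i k hk
    exact ⟨h, l, hl, Or.inl ⟨h1, h2⟩⟩
  · obtain ⟨h, l, hl, h1, h2⟩ := key e i k hk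
    exact ⟨h, l, hl, Or.inr ⟨h1, h2⟩⟩

/-- sub-segments of a half-strand -/
theorem mem_sub {h : HS S} {a b : ℝ} (hab : a ≤ b) {z : Pt} :
    z ∈ segment ℝ (LL P h a) (LL P h b) ↔ ∃ t, a ≤ t ∧ t ≤ b ∧ LL P h t = z := by
  rw [segment_eq_image']
  constructor
  · rintro ⟨τ, ⟨h0, h1⟩, rfl⟩
    refine ⟨a + τ * (b - a), by nlinarith, by nlinarith, ?_⟩
    unfold LL
    module
  · rintro ⟨t, h0, h1, rfl⟩
    rcases eq_or_lt_of_le hab with rfl | hlt
    · refine ⟨0, ⟨le_rfl, zero_le_one⟩, ?_⟩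
      have : t = a := le_antisymm h1 h0
      rw [this]
      simp
    · have hne : b - a ≠ 0 := by linarith
      refine ⟨(t - a) / (b - a), ⟨div_nonneg (by linarith) (by linarith), ?_⟩, ?_⟩
      · rw [div_le_one (by linarith)]
        linarith
      · have e : LL P h b - LL P h a = (b - a) • (P (htgt S h) - P (hsrc S h)) := by
          unfold LL
          module
        simp only
        rw [e, smul_smul, div_mul_cancel₀ _ hne]
        unfold LL
        module

theorem mem_sub_open {h : HS S} {a b t : ℝ} (h0 : a < t) (h1 : t < b) :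
    LL P h t ∈ openSegment ℝ (LL P h a) (LL P h b) := by
  rw [openSegment_eq_image']
  have hne : b - a ≠ 0 := by linarith
  refine ⟨(t - a) / (b - a), ⟨div_pos (by linarith) (by linarith), ?_⟩, ?_⟩
  · rw [div_lt_one (by linarith)]
    linarith
  · have e : LL P h b - LL P h a = (b - a) • (P (htgt S h) - P (hsrc S h)) := by
      unfold LL
      module
    simp only
    rw [e, smul_smul, div_mul_cancel₀ _ hne]
    unfold LL
    module

section main

variable (hst : ∀ e, S.src e ≠ S.tgt e) (hq : ∀ e, 0 < S.q e) (hP : Generic P)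
  {s : HS S → ℕ → ℝ} (hs : SD P s)

include hst hq hP hs

/-- a vertex on a sub-segment is one of its ends -/
theorem vertex_sub {h : HS S} {k : ℕ} (hk : k < S.q h.1.1) {w : BV S}
    (hw : QQ P s w ∈ segment ℝ (QQ P s (nd h k)) (QQ P s (nd h (k + 1)))) :
    w = nd h k ∨ w = nd h (k + 1) := by
  rw [QQ_nd hq hs h hk.le, QQ_nd hq hs h hk, mem_sub (hs.mono h k hk).le] at hw
  obtain ⟨t, t0, t1, ht⟩ := hw
  have b0 : 0 ≤ t := (hs.nonneg hk.le).trans t0
  have b1 : t ≤ 1 := t1.trans (hs.le_one hk)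
  have hm : QQ P s w ∈ hseg S P h := by rw [← ht]; exact LL_mem b0 b1
  rcases vertex_cases w with ⟨c, rfl⟩ | ⟨h', k', hk0, hk', rfl⟩
  · rw [QQ_mv hq hs] at hm ht
    rcases vertex_on hP hm with rfl | rfl
    · left
      rw [← LL_zero P h] at ht
      have h1 := LL_inj hP h ht
      have h2 : k = 0 := by
        by_contra hk0
        have := hs.lt (h := h) (Nat.pos_of_ne_zero hk0) hk.le
        rw [hs.zero] at this
        linarith
      rw [h2, nd_zero]
    · right
      rw [← LL_one P h] at ht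
      have h1 := LL_inj hP h ht
      have h2 : k + 1 = S.q h.1.1 := by
        by_contra hk0
        have := hs.lt (h := h) (k := k + 1) (l := S.q h.1.1) (by omega) le_rfl
        rw [hs.one] at this
        linarith
      rw [h2, nd_last hq]
  · rw [QQ_nd hq hs h' hk'.le] at hm ht
    obtain rfl := inner_on hs hst hP hk0 hk' hm
    have h1 := LL_inj hP h' ht
    have h2 : k ≤ k' := by
      by_contra hcon
      have := hs.lt (h := h') (k := k') (l := k) (by omega) hk.le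
      linarith
    have h3 : k' ≤ k + 1 := by
      by_contra hcon
      have := hs.lt (h := h') (k := k + 1) (l := k') (by omega) hk'.le
      linarith
    have h4 : k' = k ∨ k' = k + 1 := by omega
    rcases h4 with rfl | rfl
    · exact Or.inl rfl
    · exact Or.inr rfl

theorem QQ_inj : Function.Injective (QQ P s) := by
  have key : ∀ (h : HS S) (k : ℕ), 0 < k → k < S.q h.1.1 → ∀ w, QQ P s w = QQ P s (nd h k) →
      w = nd h k := by
    intro h k hk0 hk w he
    rcases vertex_sub hst hq hP hs hk (w := w) (by rw [he]; exact left_mem_segment _ _ _) with h1 | h1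
    · exact h1
    · exfalso
      rw [h1, QQ_nd hq hs h hk.le, QQ_nd hq hs h hk] at he
      have h2 := LL_inj hP h he
      have h3 := hs.mono h k hk
      linarith
  intro w w' he
  rcases vertex_cases w with ⟨c, rfl⟩ | ⟨h, k, hk0, hk, rfl⟩
  · rcases vertex_cases w' with ⟨c', rfl⟩ | ⟨h', k', hk0', hk', rfl⟩
    · rw [QQ_mv hq hs, QQ_mv hq hs] at he
      rw [hP.inj he]
    · exact key h' k' hk0' hk' _ he
  · exact (key h k hk0 hk _ he.symm).symm

/-- common points of two sub-segments -/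
theorem sub_meet {h h' : HS S} {k k' : ℕ} (hk : k < S.q h.1.1) (hk' : k' < S.q h'.1.1)
    (hne : ¬ (h = h' ∧ k = k')) {z : Pt}
    (hz : z ∈ segment ℝ (QQ P s (nd h k)) (QQ P s (nd h (k + 1))))
    (hz' : z ∈ segment ℝ (QQ P s (nd h' k')) (QQ P s (nd h' (k' + 1)))) :
    (∃ w, (w = nd h k ∨ w = nd h (k + 1)) ∧ (w = nd h' k' ∨ w = nd h' (k' + 1)) ∧ z = QQ P s w) ∨
    (Apart S h h' ∧ ∃ t t', t ∈ TT P h ∧ t' ∈ TT P h' ∧ s h k < t ∧ t < s h (k + 1) ∧
      s h' k' < t' ∧ t' < s h' (k' + 1) ∧ LL P h t = z ∧ LL P h' t' = z) := by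
  have q1 := QQ_nd hq hs h hk.le
  have q2 := QQ_nd hq hs h (k := k + 1) hk
  have q3 := QQ_nd hq hs h' hk'.le
  have q4 := QQ_nd hq hs h' (k := k' + 1) hk'
  rw [q1, q2, mem_sub (hs.mono h k hk).le] at hz
  rw [q3, q4, mem_sub (hs.mono h' k' hk').le] at hz'
  obtain ⟨t, t0, t1, ht⟩ := hz
  obtain ⟨u, u0, u1, hu⟩ := hz'
  have b0 : 0 ≤ t := (hs.nonneg hk.le).trans t0
  have b1 : t ≤ 1 := t1.trans (hs.le_one hk)
  have c0 : 0 ≤ u := (hs.nonneg hk'.le).trans u0
  have c1 : u ≤ 1 := u1.trans (hs.le_one hk')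
  by_cases hh : h = h'
  · left
    subst hh
    have htu : t = u := LL_inj hP h (ht.trans hu.symm)
    subst htu
    have hkk : k ≠ k' := fun h => hne ⟨rfl, h⟩
    rcases Nat.lt_or_gt_of_ne hkk with hlt | hlt
    · have h1 : s h (k + 1) ≤ s h k' := hs.le hlt hk'.le
      have h2 : t = s h (k + 1) := le_antisymm t1 (h1.trans u0)
      have h3 : k + 1 = k' := by
        by_contra hcon
        have := hs.lt (h := h) (k := k + 1) (l := k') (by omega) hk'.le
        linarith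
      refine ⟨nd h (k + 1), Or.inr rfl, Or.inl (by rw [h3]), ?_⟩
      rw [q2, ← h2, ht]
    · have h1 : s h (k' + 1) ≤ s h k := hs.le hlt hk.le
      have h2 : t = s h (k' + 1) := le_antisymm u1 (h1.trans t0)
      have h3 : k' + 1 = k := by
        by_contra hcon
        have := hs.lt (h := h) (k := k' + 1) (l := k) (by omega) hk.le
        linarith
      refine ⟨nd h (k' + 1), Or.inl (by rw [h3]), Or.inr rfl, ?_⟩
      rw [q4, ← h2, ht]
  · by_cases ha : Apart S h h'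
    · right
      have m1 : t ∈ TT P h := ⟨b0, b1, h', ha, by rw [ht, ← hu]; exact LL_mem c0 c1⟩
      have m2 : u ∈ TT P h' := ⟨c0, c1, h, Apart.symm' ha, by rw [hu, ← ht]; exact LL_mem b0 b1⟩
      refine ⟨ha, t, u, m1, m2, ?_, ?_, ?_, ?_, ht, hu⟩
      · refine lt_of_le_of_ne t0 (fun he => hs.notT h k hk.le ?_)
        rw [he]; exact m1
      · refine lt_of_le_of_ne t1 (fun he => hs.notT h (k + 1) hk ?_)
        rw [← he]; exact m1
      · refine lt_of_le_of_ne u0 (fun he => hs.notT h' k' hk'.le ?_)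
        rw [he]; exact m2
      · refine lt_of_le_of_ne u1 (fun he => hs.notT h' (k' + 1) hk' ?_)
        rw [← he]; exact m2
    · left
      obtain ⟨c, _, _, hc⟩ := not_apart_meet hst hP hh ha (z := z)
        (by rw [← ht]; exact LL_mem b0 b1) (by rw [← hu]; exact LL_mem c0 c1)
      have hQ : QQ P s (mv c) = z := by rw [QQ_mv hq hs, hc]
      refine ⟨mv c, ?_, ?_, hQ.symm⟩
      · refine vertex_sub hst hq hP hs hk ?_
        rw [q1, q2, mem_sub (hs.mono h k hk).le, hQ]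
        exact ⟨t, t0, t1, ht⟩
      · refine vertex_sub hst hq hP hs hk' ?_
        rw [q3, q4, mem_sub (hs.mono h' k' hk').le, hQ]
        exact ⟨u, u0, u1, hu⟩

end main

/-- module SUB -/
theorem sub_of (hseg : SegStmt) : SubStmt := by
  intro S _ _ hst hq P hP hc
  obtain ⟨s, hs⟩ := exists_SD hq hP hc
  have hfin : Finite (BV S) := inferInstance
  have hedge : ∀ {u v : BV S}, (BG S).Adj u v → ∃ (h : HS S) (k : ℕ), k < S.q h.1.1 ∧
      s(u, v) = s(nd h k, nd h (k + 1)) ∧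
      segment ℝ (QQ P s u) (QQ P s v) = segment ℝ (QQ P s (nd h k)) (QQ P s (nd h (k + 1))) ∧
      openSegment ℝ (QQ P s u) (QQ P s v) =
        openSegment ℝ (QQ P s (nd h k)) (QQ P s (nd h (k + 1))) ∧
      (∀ w, (w = u ∨ w = v) ↔ (w = nd h k ∨ w = nd h (k + 1))) ∧
      ∃ σ : ℝ, σ ≠ 0 ∧ QQ P s v - QQ P s u = σ • (P (htgt S h) - P (hsrc S h)) := by
    intro u v huv
    obtain ⟨h, k, hk, ⟨h1, h2⟩ | ⟨h1, h2⟩⟩ := edge_cases huv
    · subst h1 h2
      refine ⟨h, k, hk, rfl, rfl, rfl, fun w => Iff.rfl, s h (k + 1) - s h k, ?_, ?_⟩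
      · have := hs.mono h k hk
        intro h0
        linarith
      · rw [QQ_nd hq hs h hk.le, QQ_nd hq hs h hk]
        unfold LL
        module
    · subst h1 h2
      refine ⟨h, k, hk, Sym2.eq_swap, segment_symm ℝ _ _, openSegment_symm ℝ _ _,
        fun w => or_comm, s h k - s h (k + 1), ?_, ?_⟩
      · have := hs.mono h k hk
        intro h0
        linarith
      · rw [QQ_nd hq hs h hk.le, QQ_nd hq hs h hk]
        unfold LL
        module
  refine hseg (BV S) (BG S) (QQ P s) 1 (QQ_inj hst hq hP hs) ?_ ?_ ?_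
  · intro u v w huv hw
    obtain ⟨h, k, hk, _, e2, _, e4, _⟩ := hedge huv
    rw [e2] at hw
    rw [e4]
    exact vertex_sub hst hq hP hs hk hw
  · intro u v x y huv hxy hne p hp
    obtain ⟨h, k, hk, e1, e2, e3, e4, σ, hσ, e5⟩ := hedge huv
    obtain ⟨h', k', hk', f1, f2, f3, f4, σ', hσ', f5⟩ := hedge hxy
    have hne' : ¬ (h = h' ∧ k = k') := by
      rintro ⟨rfl, rfl⟩
      exact hne (e1.trans f1.symm)
    rw [e2, f2] at hp
    rcases sub_meet hst hq hP hs hk hk' hne' hp.1 hp.2 with ⟨w, hw1, hw2, hw3⟩ |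
      ⟨ha, t, t', _, _, t0, t1, t0', t1', ht, ht'⟩
    · left
      exact ⟨w, (e4 w).2 hw1, (f4 w).2 hw2, hw3⟩
    · right
      rw [e3, f3, QQ_nd hq hs h hk.le, QQ_nd hq hs h hk, QQ_nd hq hs h' hk'.le,
        QQ_nd hq hs h' hk']
      refine ⟨⟨?_, ?_⟩, ?_⟩
      · rw [← ht]; exact mem_sub_open t0 t1
      · rw [← ht']; exact mem_sub_open t0' t1'
      · have hcr := apart_cr hP ha (ht.trans ht'.symm)
        rw [e5, f5]
        simp only [Prod.smul_fst, Prod.smul_snd, smul_eq_mul]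
        intro h0
        apply hcr
        unfold cr
        have h1 : σ * σ' * ((P (htgt S h) - P (hsrc S h)).1 * (P (htgt S h') - P (hsrc S h')).2 -
            (P (htgt S h) - P (hsrc S h)).2 * (P (htgt S h') - P (hsrc S h')).1) = 0 := by
          linear_combination h0
        rcases mul_eq_zero.1 h1 with h2 | h2
        · exact absurd h2 (mul_ne_zero hσ hσ')
        · exact h2
  · intro u v huv
    obtain ⟨h, k, hk, e1, e2, _, e4, _⟩ := hedge huv
    rw [Nat.cast_one, Set.encard_le_one_iff]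
    have key : ∀ f ∈ {f : Sym2 (BV S) | ∃ x y, (BG S).Adj x y ∧ f = s(x, y) ∧ f ≠ s(u, v) ∧
        ∃ p ∈ segment ℝ (QQ P s u) (QQ P s v) ∩ segment ℝ (QQ P s x) (QQ P s y),
          ¬ ∃ w, (w = u ∨ w = v) ∧ (w = x ∨ w = y) ∧ p = QQ P s w},
        ∃ (h' : HS S) (k' : ℕ) (t t' : ℝ), k' < S.q h'.1.1 ∧ f = s(nd h' k', nd h' (k' + 1)) ∧
          Apart S h h' ∧ t ∈ TT P h ∧ s h k ≤ t ∧ t ≤ s h (k + 1) ∧ s h' k' < t' ∧
          t' < s h' (k' + 1) ∧ LL P h t = LL P h' t' ∧ 0 ≤ t ∧ t ≤ 1 ∧ 0 ≤ t' ∧ t' ≤ 1 := by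
      rintro f ⟨x, y, hxy, rfl, hne, p, hp, hnw⟩
      obtain ⟨h', k', hk', f1, f2, _, f4, _⟩ := hedge hxy
      have hne' : ¬ (h = h' ∧ k = k') := by
        rintro ⟨rfl, rfl⟩
        exact hne (f1.trans e1.symm)
      rw [e2, f2] at hp
      rcases sub_meet hst hq hP hs hk hk' hne' hp.1 hp.2 with ⟨w, hw1, hw2, hw3⟩ |
        ⟨ha, t, t', ht0, ht0', t0, t1, t0', t1', ht, ht'⟩
      · exact absurd ⟨w, (e4 w).2 hw1, (f4 w).2 hw2, hw3⟩ hnw
      · exact ⟨h', k', t, t', hk', f1, ha, ht0, t0.le, t1.le, t0', t1', ht.trans ht'.symm,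
          ht0.1, ht0.2.1, ht0'.1, ht0'.2.1⟩
    intro f g hf hg
    obtain ⟨h1, k1, t1, u1, a1, a2, a3, a4, a5, a6, a7, a8, a9, a10, a11, a12, a13⟩ := key f hf
    obtain ⟨h2, k2, t2, u2, b1, b2, b3, b4, b5, b6, b7, b8, b9, b10, b11, b12, b13⟩ := key g hg
    have ht : t1 = t2 := hs.uniq h k hk t1 a4 t2 b4 a5 a6 b5 b6
    subst ht
    have hh : h1 = h2 := cross_unique hst hP a3 b3 (LL_mem a10 a11)
      (by rw [a9]; exact LL_mem a12 a13) (by rw [b9]; exact LL_mem b12 b13)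
    subst hh
    have hu : u1 = u2 := LL_inj hP h1 (a9.symm.trans b9)
    subst hu
    have hkk : k1 = k2 := by
      by_contra hne
      rcases Nat.lt_or_gt_of_ne hne with hlt | hlt
      · have := hs.le (h := h1) (k := k1 + 1) (l := k2) hlt b1.le
        linarith
      · have := hs.le (h := h1) (k := k2 + 1) (l := k1) hlt a1.le
        linarith
    subst hkk
    rw [a2, b2]

/-- module SUB -/
theorem sub : SubStmt := sub_of seg

end Pool.Agent.LCR.H91
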