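import Pool.Agent.Helper49_LCR.Stmts

/-!
# Module TPL: the drawing of the template
-/

namespace Pool.Agent.LCR.H91

open Pool.Agent.LCR

/-! ### endpoints of segments -/

theorem seg_param {P Q z : Pt} (hz : z ∈ segment ℝ P Q) :
    ∃ τ : ℝ, 0 ≤ τ ∧ τ ≤ 1 ∧ z.1 = P.1 + τ * (Q.1 - P.1) ∧ z.2 = P.2 + τ * (Q.2 - P.2) := by
  rw [segment_eq_image'] at hz
  obtain ⟨τ, ⟨h0, h1⟩, rfl⟩ := hz
  exact ⟨τ, h0, h1, rfl, rfl⟩

theorem eq_left_of_snd {P Q z : Pt} (hz : z ∈ segment ℝ P Q) (h : P.2 ≠ Q.2) (h2 : z.2 = P.2) :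
    z = P := by
  obtain ⟨τ, h0, h1, e1, e2⟩ := seg_param hz
  have h3 : τ * (Q.2 - P.2) = 0 := by linarith
  have h4 : τ = 0 := by
    rcases mul_eq_zero.1 h3 with h5 | h5
    · exact h5
    · exact absurd (by linarith) h
  rw [h4, zero_mul, add_zero] at e1 e2
  exact Prod.ext e1 e2

theorem eq_right_of_snd {P Q z : Pt} (hz : z ∈ segment ℝ P Q) (h : P.2 ≠ Q.2) (h2 : z.2 = Q.2) :
    z = Q := by
  rw [segment_symm] at hz
  exact eq_left_of_snd hz h.symm h2

theorem eq_left_of_fst {P Q z : Pt} (hz : z ∈ segment ℝ P Q) (h : P.1 ≠ Q.1) (h2 : z.1 = P.1) :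
    z = P := by
  obtain ⟨τ, h0, h1, e1, e2⟩ := seg_param hz
  have h3 : τ * (Q.1 - P.1) = 0 := by linarith
  have h4 : τ = 0 := by
    rcases mul_eq_zero.1 h3 with h5 | h5
    · exact h5
    · exact absurd (by linarith) h
  rw [h4, zero_mul, add_zero] at e1 e2
  exact Prod.ext e1 e2

theorem eq_right_of_fst {P Q z : Pt} (hz : z ∈ segment ℝ P Q) (h : P.1 ≠ Q.1) (h2 : z.1 = Q.1) :
    z = Q := by
  rw [segment_symm] at hz
  exact eq_left_of_fst hz h.symm h2

/-! ### the regions -/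

/-- the first coordinate of a frame -/
noncomputable def XS (n : ℕ) (s : Bool) : ℝ := if s then (n : ℝ) + 1 else 0

variable {n m : ℕ}

/-- a description of the segments by inequalities -/
def Rg (T : Fin m → Fin 3 → Fin n) (px : Fin n → ℕ) : TE n m → ℝ → ℝ → Prop
  | .lo x, X, Y => 0 ≤ Y ∧ Y ≤ 1 ∧ X = px x * Y
  | .hi x, X, Y => 3 * (m : ℝ) + 1 ≤ Y ∧ Y ≤ 3 * (m : ℝ) + 2 ∧ X = px x * (3 * (m : ℝ) + 2 - Y)
  | .seg j x, X, Y => 3 * (j.val : ℝ) + 1 ≤ Y ∧ Y ≤ 3 * (j.val : ℝ) + 2 ∧ X = px x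
  | .up j x, X, Y => 3 * (j.val : ℝ) + 2 ≤ Y ∧ Y ≤ 3 * (j.val : ℝ) + 4 ∧ X = px x
  | .flo s, X, Y => 0 ≤ Y ∧ Y ≤ 1 ∧ X = XS n s * Y
  | .fhi s, X, Y => 3 * (m : ℝ) + 1 ≤ Y ∧ Y ≤ 3 * (m : ℝ) + 2 ∧ X = XS n s * (3 * (m : ℝ) + 2 - Y)
  | .fseg j s, X, Y => 3 * (j.val : ℝ) + 1 ≤ Y ∧ Y ≤ 3 * (j.val : ℝ) + 3 ∧ X = XS n s
  | .fup j s, X, Y => 3 * (j.val : ℝ) + 3 ≤ Y ∧ Y ≤ 3 * (j.val : ℝ) + 4 ∧ X = XS n s
  | .wall j s, X, Y => Y = 3 * (j.val : ℝ) + 3 ∧ (s = false → 0 ≤ X ∧ X ≤ 1 / 2) ∧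
      (s = true → 1 / 2 ≤ X ∧ X ≤ n + 1)
  | .tie j _, X, Y => 3 * (j.val : ℝ) + 1 ≤ Y ∧ Y ≤ 3 * (j.val : ℝ) + 3 / 2 ∧ 1 / 2 ≤ X ∧ X ≤ n
  | .ftie j s, X, Y => 3 * (j.val : ℝ) + 1 ≤ Y ∧ Y ≤ 3 * (j.val : ℝ) + 3 / 2 ∧
      (s = false → 0 ≤ X ∧ X ≤ 1 / 2 ∧ (X = 0 → Y = 3 * (j.val : ℝ) + 1)) ∧
      (s = true → 1 / 2 ≤ X ∧ X ≤ n + 1 ∧ (X = n + 1 → Y = 3 * (j.val : ℝ) + 1))
  | .wtie j, X, Y => 3 * (j.val : ℝ) + 3 / 2 ≤ Y ∧ Y ≤ 3 * (j.val : ℝ) + 3 ∧ X = 1 / 2
  | .blk j s k, X, Y => (k = false → 3 * (j.val : ℝ) + 1 ≤ Y ∧ Y ≤ 3 * (j.val : ℝ) + 3 / 2 ∧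
      X = px (en T j s) + (Y - (3 * (j.val : ℝ) + 1)) / 2) ∧
      (k = true → 3 * (j.val : ℝ) + 3 / 2 ≤ Y ∧ Y ≤ 3 * (j.val : ℝ) + 2 ∧
      X = px (en T j s) + (3 * (j.val : ℝ) + 2 - Y) / 2)
  | .con j s, X, Y => 3 * (j.val : ℝ) + 1 ≤ Y ∧ Y ≤ 3 * (j.val : ℝ) + 2 ∧
      X = px (en T j s) + ((px (T j 1) : ℝ) - px (en T j s)) * (Y - (3 * (j.val : ℝ) + 1))

/-- the point is an endpoint -/
def EPc : TE n m → ℝ → ℝ → Prop
  | .lo _, _, Y => Y = 0 ∨ Y = 1
  | .hi _, _, Y => Y = 3 * (m : ℝ) + 1 ∨ Y = 3 * (m : ℝ) + 2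
  | .seg j _, _, Y => Y = 3 * (j.val : ℝ) + 1 ∨ Y = 3 * (j.val : ℝ) + 2
  | .up j _, _, Y => Y = 3 * (j.val : ℝ) + 2 ∨ Y = 3 * (j.val : ℝ) + 4
  | .flo _, _, Y => Y = 0 ∨ Y = 1
  | .fhi _, _, Y => Y = 3 * (m : ℝ) + 1 ∨ Y = 3 * (m : ℝ) + 2
  | .fseg j _, _, Y => Y = 3 * (j.val : ℝ) + 1 ∨ Y = 3 * (j.val : ℝ) + 3
  | .fup j _, _, Y => Y = 3 * (j.val : ℝ) + 3 ∨ Y = 3 * (j.val : ℝ) + 4
  | .wall _ s, X, _ => X = XS n s ∨ X = 1 / 2
  | .tie j _, _, Y => Y = 3 * (j.val : ℝ) + 1 ∨ Y = 3 * (j.val : ℝ) + 3 / 2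
  | .ftie j _, _, Y => Y = 3 * (j.val : ℝ) + 1 ∨ Y = 3 * (j.val : ℝ) + 3 / 2
  | .wtie j, _, Y => Y = 3 * (j.val : ℝ) + 3 / 2 ∨ Y = 3 * (j.val : ℝ) + 3
  | .blk j _ k, _, Y => (k = false → Y = 3 * (j.val : ℝ) + 1 ∨ Y = 3 * (j.val : ℝ) + 3 / 2) ∧
      (k = true → Y = 3 * (j.val : ℝ) + 3 / 2 ∨ Y = 3 * (j.val : ℝ) + 2)
  | .con j _, _, Y => Y = 3 * (j.val : ℝ) + 1 ∨ Y = 3 * (j.val : ℝ) + 2

theorem px_bd {T : Fin m → Fin 3 → Fin n} {px : Fin n → ℕ} (hg : GoodPos T px) (x : Fin n) :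
    (1 : ℝ) ≤ px x ∧ (px x : ℝ) ≤ n :=
  ⟨by exact_mod_cast hg.pos x, by exact_mod_cast hg.le x⟩

theorem rg_of_mem (T : Fin m → Fin 3 → Fin n) (px : Fin n → ℕ) (hg : GoodPos T px) (e : TE n m)
    (z : Pt) (hz : z ∈ segment ℝ (tpos T px (tsrc T e)) (tpos T px (ttgt T e))) :
    Rg T px e z.1 z.2 := by
  obtain ⟨τ, h0, h1, e1, e2⟩ := seg_param hz
  cases e with
  | lo x =>
    simp only [tsrc, ttgt, tpos, Fin.val_zero, Nat.cast_zero] at e1 e2
    refine ⟨?_, ?_, ?_⟩
    · rw [e2]; linarith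
    · rw [e2]; linarith
    · rw [e1, e2]; ring
  | hi x =>
    simp only [tsrc, ttgt, tpos, Fin.val_last] at e1 e2
    refine ⟨?_, ?_, ?_⟩
    · rw [e2]; linarith
    · rw [e2]; linarith
    · rw [e1, e2]; ring
  | seg j x =>
    simp only [tsrc, ttgt, tpos, Fin.val_castSucc] at e1 e2
    refine ⟨?_, ?_, ?_⟩
    · rw [e2]; linarith
    · rw [e2]; linarith
    · rw [e1]; ring
  | up j x =>
    simp only [tsrc, ttgt, tpos, Fin.val_succ, Nat.cast_add, Nat.cast_one] at e1 e2
    refine ⟨?_, ?_, ?_⟩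
    · rw [e2]; linarith
    · rw [e2]; linarith
    · rw [e1]; ring
  | flo s =>
    simp only [tsrc, ttgt, tpos, Fin.val_zero, Nat.cast_zero] at e1 e2
    refine ⟨?_, ?_, ?_⟩
    · rw [e2]; linarith
    · rw [e2]; linarith
    · rw [e1, e2]; unfold XS; ring
  | fhi s =>
    simp only [tsrc, ttgt, tpos, Fin.val_last] at e1 e2
    refine ⟨?_, ?_, ?_⟩
    · rw [e2]; linarith
    · rw [e2]; linarith
    · rw [e1, e2]; unfold XS; ring
  | fseg j s =>
    simp only [tsrc, ttgt, tpos, Fin.val_castSucc] at e1 e2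
    refine ⟨?_, ?_, ?_⟩
    · rw [e2]; linarith
    · rw [e2]; linarith
    · rw [e1]; unfold XS; ring
  | fup j s =>
    simp only [tsrc, ttgt, tpos, Fin.val_succ, Nat.cast_add, Nat.cast_one] at e1 e2
    refine ⟨?_, ?_, ?_⟩
    · rw [e2]; linarith
    · rw [e2]; linarith
    · rw [e1]; unfold XS; ring
  | wall j s =>
    simp only [tsrc, ttgt, tpos] at e1 e2
    refine ⟨?_, ?_, ?_⟩
    · rw [e2]; ring
    · rintro rfl
      simp only [Bool.false_eq_true, if_false] at e1
      constructor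
      · rw [e1]; linarith
      · rw [e1]; linarith
    · rintro rfl
      simp only [if_true] at e1
      have hn : (0 : ℝ) ≤ n := Nat.cast_nonneg n
      constructor
      · rw [e1]; nlinarith
      · rw [e1]; nlinarith
  | tie j x =>
    simp only [tsrc, ttgt, tpos, Fin.val_castSucc] at e1 e2
    obtain ⟨b1, b2⟩ := px_bd hg x
    refine ⟨?_, ?_, ?_, ?_⟩
    · rw [e2]; linarith
    · rw [e2]; linarith
    · rw [e1]; nlinarith
    · rw [e1]; nlinarith
  | ftie j s =>
    simp only [tsrc, ttgt, tpos, Fin.val_castSucc] at e1 e2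
    refine ⟨?_, ?_, ?_, ?_⟩
    · rw [e2]; linarith
    · rw [e2]; linarith
    · rintro rfl
      simp only [Bool.false_eq_true, if_false] at e1
      refine ⟨?_, ?_, ?_⟩
      · rw [e1]; linarith
      · rw [e1]; linarith
      · intro hX
        rw [hX] at e1
        have : τ = 1 := by linarith
        rw [e2, this]; ring
    · rintro rfl
      simp only [if_true] at e1
      have hn : (0 : ℝ) ≤ n := Nat.cast_nonneg n
      refine ⟨?_, ?_, ?_⟩
      · rw [e1]; nlinarith
      · rw [e1]; nlinarith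
      · intro hX
        rw [hX] at e1
        have h3 : (1 - τ) * ((n : ℝ) + 1 / 2) = 0 := by linarith
        have h4 : τ = 1 := by
          rcases mul_eq_zero.1 h3 with h5 | h5
          · linarith
          · linarith
        rw [e2, h4]; ring
  | wtie j =>
    simp only [tsrc, ttgt, tpos] at e1 e2
    refine ⟨?_, ?_, ?_⟩
    · rw [e2]; linarith
    · rw [e2]; linarith
    · rw [e1]; ring
  | blk j s k =>
    refine ⟨?_, ?_⟩
    · rintro rfl
      simp only [tsrc, ttgt, tpos, Bool.false_eq_true, if_false, Fin.val_castSucc] at e1 e2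
      refine ⟨?_, ?_, ?_⟩
      · rw [e2]; linarith
      · rw [e2]; linarith
      · rw [e1, e2]; ring
    · rintro rfl
      simp only [tsrc, ttgt, tpos, if_true] at e1 e2
      refine ⟨?_, ?_, ?_⟩
      · rw [e2]; linarith
      · rw [e2]; linarith
      · rw [e1, e2]; ring
  | con j s =>
    simp only [tsrc, ttgt, tpos, Fin.val_castSucc] at e1 e2
    refine ⟨?_, ?_, ?_⟩
    · rw [e2]; linarith
    · rw [e2]; linarith
    · rw [e1, e2]; ring

/-- a point of a segment which satisfies `EPc` is an endpoint -/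
theorem ep_of_epc (T : Fin m → Fin 3 → Fin n) (px : Fin n → ℕ) (e : TE n m)
    (z : Pt) (hz : z ∈ segment ℝ (tpos T px (tsrc T e)) (tpos T px (ttgt T e)))
    (h : EPc e z.1 z.2) : ∃ v, (v = tsrc T e ∨ v = ttgt T e) ∧ z = tpos T px v := by
  -- the two candidate endpoints
  have key : z = tpos T px (tsrc T e) ∨ z = tpos T px (ttgt T e) := by
    cases e with
    | lo x =>
      rcases h with h | h
      · left
        refine eq_left_of_snd hz ?_ ?_
        · simp [tsrc, ttgt, tpos]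
        · rw [h]; simp [tsrc, tpos]
      · right
        refine eq_right_of_snd hz ?_ ?_
        · simp [tsrc, ttgt, tpos]
        · rw [h]; simp [ttgt, tpos]
    | hi x =>
      rcases h with h | h
      · left
        refine eq_left_of_snd hz ?_ ?_
        · simp [tsrc, ttgt, tpos]
        · rw [h]; simp [tsrc, tpos]
      · right
        refine eq_right_of_snd hz ?_ ?_
        · simp [tsrc, ttgt, tpos]
        · rw [h]; simp [ttgt, tpos]
    | seg j x =>
      rcases h with h | h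
      · left
        refine eq_left_of_snd hz ?_ ?_
        · simp [tsrc, ttgt, tpos]
        · rw [h]; simp [tsrc, tpos]
      · right
        refine eq_right_of_snd hz ?_ ?_
        · simp [tsrc, ttgt, tpos]
        · rw [h]; simp [ttgt, tpos]
    | up j x =>
      have hd : (tpos T px (tsrc T (.up j x))).2 ≠ (tpos T px (ttgt T (.up j x))).2 := by
        simp only [tsrc, ttgt, tpos, Fin.val_succ, Nat.cast_add, Nat.cast_one]
        intro h; linarith
      rcases h with h | h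
      · left
        refine eq_left_of_snd hz hd ?_
        rw [h]; simp [tsrc, tpos]
      · right
        refine eq_right_of_snd hz hd ?_
        rw [h]; simp only [ttgt, tpos, Fin.val_succ, Nat.cast_add, Nat.cast_one]; ring
    | flo s =>
      rcases h with h | h
      · left
        refine eq_left_of_snd hz ?_ ?_
        · simp [tsrc, ttgt, tpos]
        · rw [h]; simp [tsrc, tpos]
      · right
        refine eq_right_of_snd hz ?_ ?_
        · simp [tsrc, ttgt, tpos]
        · rw [h]; simp [ttgt, tpos]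
    | fhi s =>
      rcases h with h | h
      · left
        refine eq_left_of_snd hz ?_ ?_
        · simp [tsrc, ttgt, tpos]
        · rw [h]; simp [tsrc, tpos]
      · right
        refine eq_right_of_snd hz ?_ ?_
        · simp [tsrc, ttgt, tpos]
        · rw [h]; simp [ttgt, tpos]
    | fseg j s =>
      rcases h with h | h
      · left
        refine eq_left_of_snd hz ?_ ?_
        · simp [tsrc, ttgt, tpos]
        · rw [h]; simp [tsrc, tpos]
      · right
        refine eq_right_of_snd hz ?_ ?_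
        · simp [tsrc, ttgt, tpos]
        · rw [h]; simp [ttgt, tpos]
    | fup j s =>
      have hd : (tpos T px (tsrc T (.fup j s))).2 ≠ (tpos T px (ttgt T (.fup j s))).2 := by
        simp only [tsrc, ttgt, tpos, Fin.val_succ, Nat.cast_add, Nat.cast_one]
        intro h; linarith
      rcases h with h | h
      · left
        refine eq_left_of_snd hz hd ?_
        rw [h]; simp [tsrc, tpos]
      · right
        refine eq_right_of_snd hz hd ?_
        rw [h]; simp only [ttgt, tpos, Fin.val_succ, Nat.cast_add, Nat.cast_one]; ring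
    | wall j s =>
      have hd : (tpos T px (tsrc T (.wall j s))).1 ≠ (tpos T px (ttgt T (.wall j s))).1 := by
        simp only [tsrc, ttgt, tpos]
        have hn : (0 : ℝ) ≤ n := Nat.cast_nonneg n
        cases s
        · norm_num
        · simp only [if_true]
          intro h; linarith
      rcases h with h | h
      · left
        refine eq_left_of_fst hz hd ?_
        rw [h]; simp [tsrc, tpos, XS]
      · right
        refine eq_right_of_fst hz hd ?_
        rw [h]; simp [ttgt, tpos]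
    | tie j x =>
      have hd : (tpos T px (tsrc T (.tie j x))).2 ≠ (tpos T px (ttgt T (.tie j x))).2 := by
        simp only [tsrc, ttgt, tpos, Fin.val_castSucc]
        intro h; linarith
      rcases h with h | h
      · right
        refine eq_right_of_snd hz hd ?_
        rw [h]; simp [ttgt, tpos]
      · left
        refine eq_left_of_snd hz hd ?_
        rw [h]; simp [tsrc, tpos]
    | ftie j s =>
      have hd : (tpos T px (tsrc T (.ftie j s))).2 ≠ (tpos T px (ttgt T (.ftie j s))).2 := by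
        simp only [tsrc, ttgt, tpos, Fin.val_castSucc]
        intro h; linarith
      rcases h with h | h
      · right
        refine eq_right_of_snd hz hd ?_
        rw [h]; simp [ttgt, tpos]
      · left
        refine eq_left_of_snd hz hd ?_
        rw [h]; simp [tsrc, tpos]
    | wtie j =>
      have hd : (tpos T px (tsrc T (.wtie j))).2 ≠ (tpos T px (ttgt T (.wtie j))).2 := by
        simp only [tsrc, ttgt, tpos]
        intro h; linarith
      rcases h with h | h
      · left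
        refine eq_left_of_snd hz hd ?_
        rw [h]; simp [tsrc, tpos]
      · right
        refine eq_right_of_snd hz hd ?_
        rw [h]; simp [ttgt, tpos]
    | blk j s k =>
      have hd : (tpos T px (tsrc T (.blk j s k))).2 ≠ (tpos T px (ttgt T (.blk j s k))).2 := by
        cases k
        · simp only [tsrc, ttgt, tpos, Bool.false_eq_true, if_false, Fin.val_castSucc]
          intro h; linarith
        · simp only [tsrc, ttgt, tpos, if_true]
          intro h; linarith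
      cases k
      · rcases h.1 rfl with h | h
        · left
          refine eq_left_of_snd hz hd ?_
          rw [h]; simp [tsrc, tpos]
        · right
          refine eq_right_of_snd hz hd ?_
          rw [h]; simp [ttgt, tpos]
      · rcases h.2 rfl with h | h
        · left
          refine eq_left_of_snd hz hd ?_
          rw [h]; simp [tsrc, tpos]
        · right
          refine eq_right_of_snd hz hd ?_
          rw [h]; simp [ttgt, tpos]
    | con j s =>
      rcases h with h | h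
      · left
        refine eq_left_of_snd hz ?_ ?_
        · simp [tsrc, ttgt, tpos]
        · rw [h]; simp [tsrc, tpos]
      · right
        refine eq_right_of_snd hz ?_ ?_
        · simp [tsrc, ttgt, tpos]
        · rw [h]; simp [ttgt, tpos]
  rcases key with h1 | h1
  · exact ⟨_, Or.inl rfl, h1⟩
  · exact ⟨_, Or.inr rfl, h1⟩

end Pool.Agent.LCR.H91
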