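import Pool.Agent.Helper91_LCR.Tpl

/-!
# Module TPL: the drawing of the template, second part
-/

namespace Pool.Agent.LCR.H91

open Pool.Agent.LCR

variable {n m : ℕ}

/-- twice the lowest height -/
def H0 : TE n m → ℕ
  | .lo _ => 0
  | .hi _ => 6 * m + 2
  | .seg j _ => 6 * j.val + 2
  | .up j _ => 6 * j.val + 4
  | .flo _ => 0
  | .fhi _ => 6 * m + 2
  | .fseg j _ => 6 * j.val + 2
  | .fup j _ => 6 * j.val + 6
  | .wall j _ => 6 * j.val + 6
  | .tie j _ => 6 * j.val + 2
  | .ftie j _ => 6 * j.val + 2
  | .wtie j => 6 * j.val + 3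
  | .blk j _ k => if k then 6 * j.val + 3 else 6 * j.val + 2
  | .con j _ => 6 * j.val + 2

/-- twice the highest height -/
def H1 : TE n m → ℕ
  | .lo _ => 2
  | .hi _ => 6 * m + 4
  | .seg j _ => 6 * j.val + 4
  | .up j _ => 6 * j.val + 8
  | .flo _ => 2
  | .fhi _ => 6 * m + 4
  | .fseg j _ => 6 * j.val + 6
  | .fup j _ => 6 * j.val + 8
  | .wall j _ => 6 * j.val + 6
  | .tie j _ => 6 * j.val + 3
  | .ftie j _ => 6 * j.val + 3
  | .wtie j => 6 * j.val + 6
  | .blk j _ k => if k then 6 * j.val + 4 else 6 * j.val + 3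
  | .con j _ => 6 * j.val + 4

theorem hts {T : Fin m → Fin 3 → Fin n} {px : Fin n → ℕ} {e : TE n m} {X Y : ℝ}
    (h : Rg T px e X Y) : (H0 e : ℝ) ≤ 2 * Y ∧ 2 * Y ≤ H1 e := by
  cases e with
  | wall j s =>
    obtain ⟨h1, _, _⟩ := h
    simp only [H0, H1]
    push_cast
    constructor <;> linarith
  | blk j s k =>
    cases k
    · obtain ⟨h1, h2, _⟩ := h.1 rfl
      simp only [H0, H1, Bool.false_eq_true, if_false]
      push_cast
      constructor <;> linarith
    · obtain ⟨h1, h2, _⟩ := h.2 rfl
      simp only [H0, H1, if_true]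
      push_cast
      constructor <;> linarith
  | _ =>
    obtain ⟨h1, h2, _⟩ := h
    simp only [H0, H1]
    push_cast
    constructor <;> linarith

theorem epc_of_h {e : TE n m} {X Y : ℝ} (hw : ∀ j s, e ≠ .wall j s)
    (h : 2 * Y = H0 e ∨ 2 * Y = H1 e) : EPc e X Y := by
  cases e with
  | wall j s => exact absurd rfl (hw j s)
  | blk j s k =>
    cases k
    · refine ⟨fun _ => ?_, fun h => absurd h (by simp)⟩
      simp only [H0, H1, Bool.false_eq_true, if_false] at h
      push_cast at h
      rcases h with h | h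
      · left; linarith
      · right; linarith
    · refine ⟨fun h => absurd h (by simp), fun _ => ?_⟩
      simp only [H0, H1, if_true] at h
      push_cast at h
      rcases h with h | h
      · left; linarith
      · right; linarith
  | _ =>
    simp only [H0, H1] at h
    push_cast at h
    rcases h with h | h
    · left; linarith
    · right; linarith

/-- positions of different elements differ at least by one -/
theorem tri {a b : ℕ} (h : a ≠ b) : (a : ℝ) + 1 ≤ b ∨ (b : ℝ) + 1 ≤ a := by
  rcases Nat.lt_or_gt_of_ne h with h | h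
  · left; exact_mod_cast h
  · right; exact_mod_cast h

theorem en_ne {T : Fin m → Fin 3 → Fin n} {px : Fin n → ℕ} (hg : GoodPos T px) (j : Fin m) :
    px (en T j false) ≠ px (en T j true) := by
  have h := hg.mid j
  simp only [en, Bool.false_eq_true, if_false, if_true]
  omega

/-- the two possible orders -/
theorem mid_cases {T : Fin m → Fin 3 → Fin n} {px : Fin n → ℕ} (hg : GoodPos T px) (j : Fin m)
    (s : Bool) : ((px (en T j s) : ℝ) + 1 ≤ px (T j 1) ∧ (px (T j 1) : ℝ) + 1 ≤ px (en T j !s)) ∨
      ((px (en T j !s) : ℝ) + 1 ≤ px (T j 1) ∧ (px (T j 1) : ℝ) + 1 ≤ px (en T j s)) := by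
  have h := hg.mid j
  cases s
  · simp only [en, Bool.not_false, Bool.false_eq_true, if_false, if_true]
    rcases h with ⟨h1, h2⟩ | ⟨h1, h2⟩
    · left; exact ⟨by exact_mod_cast h1, by exact_mod_cast h2⟩
    · right; exact ⟨by exact_mod_cast h1, by exact_mod_cast h2⟩
  · simp only [en, Bool.not_true, Bool.false_eq_true, if_false, if_true]
    rcases h with ⟨h1, h2⟩ | ⟨h1, h2⟩
    · right; exact ⟨by exact_mod_cast h1, by exact_mod_cast h2⟩
    · left; exact ⟨by exact_mod_cast h1, by exact_mod_cast h2⟩

/-- a constraint edge lies between its ends -/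
theorem con_bd {T : Fin m → Fin 3 → Fin n} {px : Fin n → ℕ} (hg : GoodPos T px) {j : Fin m}
    {s : Bool} {X Y : ℝ} (h : Rg T px (.con j s) X Y) : 1 ≤ X ∧ X ≤ n ∧
      (((px (en T j s) : ℝ) ≤ X ∧ X ≤ px (T j 1)) ∨ ((px (T j 1) : ℝ) ≤ X ∧ X ≤ px (en T j s))) := by
  obtain ⟨h1, h2, h3⟩ := h
  obtain ⟨p1, p2⟩ := px_bd hg (en T j s)
  obtain ⟨q1, q2⟩ := px_bd hg (T j 1)
  set t := Y - (3 * (j.val : ℝ) + 1) with ht
  have t0 : 0 ≤ t := by linarith
  have t1 : t ≤ 1 := by linarith
  rcases mid_cases hg j s with ⟨h4, _⟩ | ⟨_, h4⟩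
  · have h5 : (px (en T j s) : ℝ) ≤ X ∧ X ≤ px (T j 1) := by
      constructor
      · rw [h3]; nlinarith
      · rw [h3]; nlinarith
    exact ⟨p1.trans h5.1, h5.2.trans q2, Or.inl h5⟩
  · have h5 : (px (T j 1) : ℝ) ≤ X ∧ X ≤ px (en T j s) := by
      constructor
      · rw [h3]; nlinarith
      · rw [h3]; nlinarith
    exact ⟨q1.trans h5.1, h5.2.trans p2, Or.inr h5⟩

theorem XS_cases (n : ℕ) (s : Bool) : (s = false ∧ XS n s = 0) ∨ (s = true ∧ XS n s = n + 1) := by
  cases s
  · left; simp [XS]
  · right; simp [XS]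

theorem XS_ne_px {T : Fin m → Fin 3 → Fin n} {px : Fin n → ℕ} (hg : GoodPos T px) (x : Fin n)
    (s : Bool) : (px x : ℝ) ≠ XS n s := by
  obtain ⟨h1, h2⟩ := px_bd hg x
  rcases XS_cases n s with ⟨_, h⟩ | ⟨_, h⟩ <;> rw [h] <;> intro h3 <;> linarith

theorem XS_inj {s s' : Bool} (h : XS n s = XS n s') : s = s' := by
  have hn : (0 : ℝ) ≤ n := Nat.cast_nonneg n
  cases s <;> cases s' <;> simp only [XS, Bool.false_eq_true, if_false, if_true] at h ⊢ <;> linarith

/-- a point common to two fans from a point is the point -/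
theorem fan {a b Y X : ℝ} (h1 : X = a * Y) (h2 : X = b * Y) (h : a ≠ b) : Y = 0 := by
  have h3 : (a - b) * Y = 0 := by linarith
  rcases mul_eq_zero.1 h3 with h4 | h4
  · exact absurd (by linarith) h
  · exact h4

theorem px_ne {T : Fin m → Fin 3 → Fin n} {px : Fin n → ℕ} (hg : GoodPos T px) {x x' : Fin n}
    (h : x ≠ x') : (px x : ℝ) ≠ px x' := fun h2 => h (hg.inj (by exact_mod_cast h2))

/-- the main case analysis -/
theorem epc_pair {T : Fin m → Fin 3 → Fin n} {px : Fin n → ℕ} (hg : GoodPos T px) (e f : TE n m)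
    (hne : e ≠ f) (hF : Forb (ty e) (ty f)) {X Y : ℝ} (he : Rg T px e X Y) (hf : Rg T px f X Y) :
    EPc e X Y := by
  have a := hts he
  have b := hts hf
  have n1 : H0 e ≤ H1 f := by exact_mod_cast a.1.trans b.2
  have n2 : H0 f ≤ H1 e := by exact_mod_cast b.1.trans a.2
  have hn : (0 : ℝ) ≤ n := Nat.cast_nonneg n
  by_cases hw : ∃ j s, e = .wall j s
  · obtain ⟨j, s, rfl⟩ := hw
    obtain ⟨c1, c2, c3⟩ := he
    cases f with
    | lo x => exfalso; simp only [H0, H1] at n1 n2; omega
    | hi x => exfalso; simp only [H0, H1] at n1 n2; omega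
    | seg j' x => exfalso; simp only [H0, H1] at n1 n2; omega
    | up j' x => exact absurd hF (by simp [ty, Forb, Ty.a, Ty.c])
    | flo s' => exfalso; simp only [H0, H1] at n1 n2; omega
    | fhi s' => exfalso; simp only [H0, H1] at n1 n2; omega
    | fseg j' s' =>
      obtain ⟨_, _, d3⟩ := hf
      left
      cases s <;> cases s' <;> simp only [XS, Bool.false_eq_true, if_false, if_true] at d3 ⊢
      · exact d3
      · linarith [(c2 rfl).2]
      · linarith [(c3 rfl).1]
      · exact d3
    | fup j' s' =>
      obtain ⟨_, _, d3⟩ := hf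
      left
      cases s <;> cases s' <;> simp only [XS, Bool.false_eq_true, if_false, if_true] at d3 ⊢
      · exact d3
      · linarith [(c2 rfl).2]
      · linarith [(c3 rfl).1]
      · exact d3
    | wall j' s' => exact absurd hF (by simp [ty, Forb, Ty.a, Ty.c])
    | tie j' x => exfalso; simp only [H0, H1] at n1 n2; omega
    | ftie j' s' => exfalso; simp only [H0, H1] at n1 n2; omega
    | wtie j' => right; exact hf.2.2
    | blk j' s' k => exfalso; cases k <;> simp [H0, H1] at n1 n2 <;> omega
    | con j' s' => exfalso; simp only [H0, H1] at n1 n2; omega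
  push Not at hw
  by_cases hs1 : H1 f ≤ H0 e
  · refine epc_of_h hw (Or.inl ?_)
    have h3 : (H1 f : ℝ) ≤ H0 e := by exact_mod_cast hs1
    linarith [a.1, b.2]
  by_cases hs2 : H1 e ≤ H0 f
  · refine epc_of_h hw (Or.inr ?_)
    have h3 : (H1 e : ℝ) ≤ H0 f := by exact_mod_cast hs2
    linarith [a.2, b.1]
  clear a b
  cases e with
  | lo x =>
    cases f with
    | lo x' => exact Or.inl (fan he.2.2 hf.2.2 (px_ne hg (fun h => hne (by rw [h]))))
    | flo s' => exact Or.inl (fan he.2.2 hf.2.2 (XS_ne_px hg x s'))
    | blk j' s' k => exfalso; cases k <;> simp [H0, H1] at hs1 hs2 <;> omega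
    | _ => exfalso; simp only [H0, H1] at hs1 hs2; omega
  | flo s =>
    cases f with
    | lo x' => exact Or.inl (fan he.2.2 hf.2.2 (XS_ne_px hg x' s).symm)
    | flo s' => exact Or.inl (fan he.2.2 hf.2.2 (fun h => hne (by rw [XS_inj h])))
    | blk j' s' k => exfalso; cases k <;> simp [H0, H1] at hs1 hs2 <;> omega
    | _ => exfalso; simp only [H0, H1] at hs1 hs2; omega
  | hi x =>
    cases f with
    | hi x' =>
      right
      linarith [fan he.2.2 hf.2.2 (px_ne hg (fun h => hne (by rw [h])))]
    | fhi s' =>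
      right
      linarith [fan he.2.2 hf.2.2 (XS_ne_px hg x s')]
    | blk j' s' k => exfalso; cases k <;> simp [H0, H1] at hs1 hs2 <;> omega
    | _ => exfalso; simp only [H0, H1] at hs1 hs2; omega
  | fhi s =>
    cases f with
    | hi x' =>
      right
      linarith [fan he.2.2 hf.2.2 (XS_ne_px hg x' s).symm]
    | fhi s' =>
      right
      linarith [fan he.2.2 hf.2.2 (fun h => hne (by rw [XS_inj h]))]
    | blk j' s' k => exfalso; cases k <;> simp [H0, H1] at hs1 hs2 <;> omega
    | _ => exfalso; simp only [H0, H1] at hs1 hs2; omega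
  | seg j x =>
    have hx := he.2.2
    cases f with
    | seg j' x' =>
      exfalso
      have hj : j = j' := by simp only [H0, H1] at hs1 hs2; omega
      subst hj
      exact px_ne hg (fun h => hne (by rw [h])) (hx.symm.trans hf.2.2)
    | fseg j' s' => exact absurd (hx.symm.trans hf.2.2) (XS_ne_px hg x s')
    | fup j' s' => exact absurd (hx.symm.trans hf.2.2) (XS_ne_px hg x s')
    | blk j' s' k =>
      have hj : j = j' := by cases k <;> simp [H0, H1] at hs1 hs2 <;> omega
      subst hj
      cases k
      · obtain ⟨d1, d2, d3⟩ := hf.1 rfl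
        by_cases hxx : px x = px (en T j s')
        · rw [hx, hxx] at d3
          left; linarith
        · exfalso
          rcases tri hxx with h | h <;> linarith
      · obtain ⟨d1, d2, d3⟩ := hf.2 rfl
        by_cases hxx : px x = px (en T j s')
        · rw [hx, hxx] at d3
          right; linarith
        · exfalso
          rcases tri hxx with h | h <;> linarith
    | tie j' x' => exact absurd hF (by simp [ty, Forb, Ty.a, Ty.c])
    | ftie j' s' => exact absurd hF (by simp [ty, Forb, Ty.a, Ty.c])
    | wtie j' => exact absurd hF (by simp [ty, Forb, Ty.a, Ty.c])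
    | con j' s' => exact absurd hF (by simp [ty, Forb, Ty.a, Ty.c])
    | _ => exfalso; simp only [H0, H1] at hs1 hs2; omega
  | up j x =>
    have hx := he.2.2
    obtain ⟨p1, p2⟩ := px_bd hg x
    cases f with
    | up j' x' =>
      exfalso
      have hj : j = j' := by simp only [H0, H1] at hs1 hs2; omega
      subst hj
      exact px_ne hg (fun h => hne (by rw [h])) (hx.symm.trans hf.2.2)
    | fseg j' s' => exact absurd (hx.symm.trans hf.2.2) (XS_ne_px hg x s')
    | fup j' s' => exact absurd (hx.symm.trans hf.2.2) (XS_ne_px hg x s')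
    | wtie j' => exfalso; linarith [hf.2.2]
    | wall j' s' => exact absurd hF (by simp [ty, Forb, Ty.a, Ty.c])
    | blk j' s' k => exfalso; cases k <;> simp [H0, H1] at hs1 hs2 <;> omega
    | _ => exfalso; simp only [H0, H1] at hs1 hs2; omega
  | fseg j s =>
    have hx := he.2.2
    cases f with
    | seg j' x' => exact absurd (hf.2.2.symm.trans hx) (XS_ne_px hg x' s)
    | up j' x' => exact absurd (hf.2.2.symm.trans hx) (XS_ne_px hg x' s)
    | fseg j' s' =>
      exfalso
      have hj : j = j' := by simp only [H0, H1] at hs1 hs2; omega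
      subst hj
      exact hne (by rw [XS_inj (hx.symm.trans hf.2.2)])
    | tie j' x' =>
      exfalso
      obtain ⟨_, _, d3, d4⟩ := hf
      rcases XS_cases n s with ⟨_, h⟩ | ⟨_, h⟩ <;> rw [h] at hx <;> linarith
    | ftie j' s' =>
      have hj : j = j' := by simp only [H0, H1] at hs1 hs2; omega
      subst hj
      obtain ⟨_, _, d3, d4⟩ := hf
      left
      cases s' <;> cases s <;> simp only [XS, Bool.false_eq_true, if_false, if_true] at hx
      · exact (d3 rfl).2.2 hx
      · linarith [(d3 rfl).2.1]
      · linarith [(d4 rfl).1]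
      · exact (d4 rfl).2.2 hx
    | wtie j' =>
      exfalso
      have d3 := hf.2.2
      rcases XS_cases n s with ⟨_, h⟩ | ⟨_, h⟩ <;> rw [h] at hx <;> linarith
    | blk j' s' k =>
      exfalso
      obtain ⟨p1, p2⟩ := px_bd hg (en T j' s')
      cases k
      · obtain ⟨d1, d2, d3⟩ := hf.1 rfl
        rcases XS_cases n s with ⟨_, h⟩ | ⟨_, h⟩ <;> rw [h] at hx <;> linarith
      · obtain ⟨d1, d2, d3⟩ := hf.2 rfl
        rcases XS_cases n s with ⟨_, h⟩ | ⟨_, h⟩ <;> rw [h] at hx <;> linarith
    | con j' s' =>
      exfalso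
      obtain ⟨d1, d2, _⟩ := con_bd hg hf
      rcases XS_cases n s with ⟨_, h⟩ | ⟨_, h⟩ <;> rw [h] at hx <;> linarith
    | _ => exfalso; simp only [H0, H1] at hs1 hs2; omega
  | fup j s =>
    have hx := he.2.2
    cases f with
    | up j' x' => exact absurd (hf.2.2.symm.trans hx) (XS_ne_px hg x' s)
    | fup j' s' =>
      exfalso
      have hj : j = j' := by simp only [H0, H1] at hs1 hs2; omega
      subst hj
      exact hne (by rw [XS_inj (hx.symm.trans hf.2.2)])
    | blk j' s' k => exfalso; cases k <;> simp [H0, H1] at hs1 hs2 <;> omega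
    | _ => exfalso; simp only [H0, H1] at hs1 hs2; omega
  | wall j s => exact absurd rfl (hw j s)
  | tie j x =>
    obtain ⟨_, _, c3, c4⟩ := he
    cases f with
    | fseg j' s' =>
      exfalso
      have hx := hf.2.2
      rcases XS_cases n s' with ⟨_, h⟩ | ⟨_, h⟩ <;> rw [h] at hx <;> linarith
    | tie j' x' => exact absurd hF (by simp [ty, Forb, Ty.a, Ty.c])
    | ftie j' s' => exact absurd hF (by simp [ty, Forb, Ty.a, Ty.c])
    | wtie j' => exact absurd hF (by simp [ty, Forb, Ty.a, Ty.c])
    | con j' s' => exact absurd hF (by simp [ty, Forb, Ty.a, Ty.c])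
    | seg j' s' => exact absurd hF (by simp [ty, Forb, Ty.a, Ty.c])
    | blk j' s' k => exact absurd hF (by simp [ty, Forb, Ty.a, Ty.c])
    | _ => exfalso; simp only [H0, H1] at hs1 hs2; omega
  | ftie j s =>
    obtain ⟨_, _, c3, c4⟩ := he
    cases f with
    | fseg j' s' =>
      have hx := hf.2.2
      left
      cases s <;> cases s' <;> simp only [XS, Bool.false_eq_true, if_false, if_true] at hx
      · exact (c3 rfl).2.2 hx
      · linarith [(c3 rfl).2.1]
      · linarith [(c4 rfl).1]
      · exact (c4 rfl).2.2 hx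
    | tie j' x' => exact absurd hF (by simp [ty, Forb, Ty.a, Ty.c])
    | ftie j' s' => exact absurd hF (by simp [ty, Forb, Ty.a, Ty.c])
    | wtie j' => exact absurd hF (by simp [ty, Forb, Ty.a, Ty.c])
    | con j' s' => exact absurd hF (by simp [ty, Forb, Ty.a, Ty.c])
    | seg j' s' => exact absurd hF (by simp [ty, Forb, Ty.a, Ty.c])
    | blk j' s' k => exact absurd hF (by simp [ty, Forb, Ty.a, Ty.c])
    | _ => exfalso; simp only [H0, H1] at hs1 hs2; omega
  | wtie j =>
    have hx := he.2.2
    cases f with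
    | fseg j' s' =>
      exfalso
      have d3 := hf.2.2
      rcases XS_cases n s' with ⟨_, h⟩ | ⟨_, h⟩ <;> rw [h] at d3 <;> linarith
    | up j' x' =>
      exfalso
      obtain ⟨p1, p2⟩ := px_bd hg x'
      linarith [hf.2.2]
    | tie j' x' => exact absurd hF (by simp [ty, Forb, Ty.a, Ty.c])
    | ftie j' s' => exact absurd hF (by simp [ty, Forb, Ty.a, Ty.c])
    | wtie j' => exact absurd hF (by simp [ty, Forb, Ty.a, Ty.c])
    | con j' s' => exact absurd hF (by simp [ty, Forb, Ty.a, Ty.c])
    | seg j' s' => exact absurd hF (by simp [ty, Forb, Ty.a, Ty.c])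
    | blk j' s' k => exact absurd hF (by simp [ty, Forb, Ty.a, Ty.c])
    | _ => exfalso; simp only [H0, H1] at hs1 hs2; omega
  | blk j s k =>
    cases f with
    | seg j' x' =>
      have hj : j = j' := by cases k <;> simp [H0, H1] at hs1 hs2 <;> omega
      subst hj
      have hx := hf.2.2
      cases k
      · refine ⟨fun _ => ?_, fun h => absurd h (by simp)⟩
        obtain ⟨d1, d2, d3⟩ := he.1 rfl
        by_cases hxx : px x' = px (en T j s)
        · rw [hx, hxx] at d3
          left; linarith
        · exfalso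
          rcases tri hxx with h | h <;> linarith
      · refine ⟨fun h => absurd h (by simp), fun _ => ?_⟩
        obtain ⟨d1, d2, d3⟩ := he.2 rfl
        by_cases hxx : px x' = px (en T j s)
        · rw [hx, hxx] at d3
          right; linarith
        · exfalso
          rcases tri hxx with h | h <;> linarith
    | fseg j' s' =>
      exfalso
      have hx := hf.2.2
      obtain ⟨p1, p2⟩ := px_bd hg (en T j s)
      cases k
      · obtain ⟨d1, d2, d3⟩ := he.1 rfl
        rcases XS_cases n s' with ⟨_, h⟩ | ⟨_, h⟩ <;> rw [h] at hx <;> linarith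
      · obtain ⟨d1, d2, d3⟩ := he.2 rfl
        rcases XS_cases n s' with ⟨_, h⟩ | ⟨_, h⟩ <;> rw [h] at hx <;> linarith
    | blk j' s' k' =>
      exfalso
      have hj : j = j' := by cases k <;> cases k' <;> simp [H0, H1] at hs1 hs2 <;> omega
      subst hj
      have hk : k = k' := by
        cases k <;> cases k' <;> simp [H0, H1] at hs1 hs2 ⊢
      subst hk
      have hss : s ≠ s' := fun h => hne (by rw [h])
      have h2 : px (en T j s) ≠ px (en T j s') := by
        have := en_ne hg j
        cases s <;> cases s' <;> simp_all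
        exact fun h => this h.symm
      cases k
      · obtain ⟨d1, d2, d3⟩ := he.1 rfl
        obtain ⟨g1, g2, g3⟩ := hf.1 rfl
        rcases tri h2 with h | h <;> linarith
      · obtain ⟨d1, d2, d3⟩ := he.2 rfl
        obtain ⟨g1, g2, g3⟩ := hf.2 rfl
        rcases tri h2 with h | h <;> linarith
    | con j' s' =>
      have hj : j = j' := by cases k <;> simp [H0, H1] at hs1 hs2 <;> omega
      subst hj
      have hb := (con_bd hg hf).2.2
      obtain ⟨g1, g2, g3⟩ := hf
      by_cases hss : s' = s
      · subst hss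
        cases k
        · refine ⟨fun _ => ?_, fun h => absurd h (by simp)⟩
          obtain ⟨d1, d2, d3⟩ := he.1 rfl
          left
          have h4 : (((px (T j 1) : ℝ) - px (en T j s')) - 1 / 2) * (Y - (3 * (j.val : ℝ) + 1)) = 0 := by
            linarith
          rcases mul_eq_zero.1 h4 with h5 | h5
          · exfalso
            rcases mid_cases hg j s' with ⟨h6, _⟩ | ⟨_, h6⟩ <;> linarith
          · linarith
        · refine ⟨fun h => absurd h (by simp), fun _ => ?_⟩
          obtain ⟨d1, d2, d3⟩ := he.2 rfl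
          exfalso
          rcases mid_cases hg j s' with ⟨h6, _⟩ | ⟨_, h6⟩
          · have h7 : (px (en T j s') : ℝ) + 1 / 2 ≤ X := by
              rw [g3]; nlinarith
            linarith
          · have h7 : X + 1 / 2 ≤ px (en T j s') := by
              rw [g3]; nlinarith
            linarith
      · exfalso
        have hs' : s' = !s := by cases s <;> cases s' <;> simp_all
        subst hs'
        have hX : (px (en T j s) : ℝ) ≤ X ∧ X ≤ px (en T j s) + 1 / 4 := by
          cases k
          · obtain ⟨d1, d2, d3⟩ := he.1 rfl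
            constructor <;> linarith
          · obtain ⟨d1, d2, d3⟩ := he.2 rfl
            constructor <;> linarith
        rcases mid_cases hg j s with ⟨h6, h7⟩ | ⟨h6, h7⟩ <;> rcases hb with ⟨h8, h9⟩ | ⟨h8, h9⟩ <;>
          linarith [hX.1, hX.2]
    | tie j' x' => exact absurd hF (by simp [ty, Forb, Ty.a, Ty.c])
    | ftie j' s' => exact absurd hF (by simp [ty, Forb, Ty.a, Ty.c])
    | wtie j' => exact absurd hF (by simp [ty, Forb, Ty.a, Ty.c])
    | _ => exfalso; cases k <;> simp [H0, H1] at hs1 hs2 <;> omega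
  | con j s =>
    have hb := con_bd hg he
    cases f with
    | fseg j' s' =>
      exfalso
      have hx := hf.2.2
      rcases XS_cases n s' with ⟨_, h⟩ | ⟨_, h⟩ <;> rw [h] at hx <;> linarith [hb.1, hb.2.1]
    | blk j' s' k =>
      have hj : j = j' := by cases k <;> simp [H0, H1] at hs1 hs2 <;> omega
      subst hj
      obtain ⟨g1, g2, g3⟩ := he
      by_cases hss : s = s'
      · subst hss
        cases k
        · obtain ⟨d1, d2, d3⟩ := hf.1 rfl
          left
          have h4 : (((px (T j 1) : ℝ) - px (en T j s)) - 1 / 2) * (Y - (3 * (j.val : ℝ) + 1)) = 0 := by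
            linarith
          rcases mul_eq_zero.1 h4 with h5 | h5
          · exfalso
            rcases mid_cases hg j s with ⟨h6, _⟩ | ⟨_, h6⟩ <;> linarith
          · linarith
        · obtain ⟨d1, d2, d3⟩ := hf.2 rfl
          exfalso
          rcases mid_cases hg j s with ⟨h6, _⟩ | ⟨_, h6⟩
          · have h7 : (px (en T j s) : ℝ) + 1 / 2 ≤ X := by
              rw [g3]; nlinarith
            linarith
          · have h7 : X + 1 / 2 ≤ px (en T j s) := by
              rw [g3]; nlinarith
            linarith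
      · exfalso
        have hs' : s = !s' := by cases s <;> cases s' <;> simp_all
        subst hs'
        have hX : (px (en T j s') : ℝ) ≤ X ∧ X ≤ px (en T j s') + 1 / 4 := by
          cases k
          · obtain ⟨d1, d2, d3⟩ := hf.1 rfl
            constructor <;> linarith
          · obtain ⟨d1, d2, d3⟩ := hf.2 rfl
            constructor <;> linarith
        rcases mid_cases hg j s' with ⟨h6, h7⟩ | ⟨h6, h7⟩ <;>
          rcases hb.2.2 with ⟨h8, h9⟩ | ⟨h8, h9⟩ <;> linarith [hX.1, hX.2]
    | tie j' x' => exact absurd hF (by simp [ty, Forb, Ty.a, Ty.c])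
    | ftie j' s' => exact absurd hF (by simp [ty, Forb, Ty.a, Ty.c])
    | wtie j' => exact absurd hF (by simp [ty, Forb, Ty.a, Ty.c])
    | con j' s' => exact absurd hF (by simp [ty, Forb, Ty.a, Ty.c])
    | seg j' s' => exact absurd hF (by simp [ty, Forb, Ty.a, Ty.c])
    | _ => exfalso; simp only [H0, H1] at hs1 hs2; omega

/-- twice the height of a vertex -/
def HV : TV n m → ℕ
  | .t => 0
  | .b => 6 * m + 4
  | .A j _ => 6 * j.val + 2
  | .B j _ => 6 * j.val + 4
  | .FA j _ => 6 * j.val + 2
  | .FB j _ => 6 * j.val + 6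
  | .u j => 6 * j.val + 3
  | .w j => 6 * j.val + 6
  | .z j _ => 6 * j.val + 3

theorem HV_eq (T : Fin m → Fin 3 → Fin n) (px : Fin n → ℕ) (v : TV n m) :
    (HV v : ℝ) = 2 * (tpos T px v).2 := by
  cases v <;> simp only [HV, tpos] <;> push_cast <;> ring

theorem tpos_inj {T : Fin m → Fin 3 → Fin n} {px : Fin n → ℕ} (hg : GoodPos T px) :
    Function.Injective (tpos T px) := by
  intro v v' h
  have h1 : (tpos T px v).1 = (tpos T px v').1 := by rw [h]
  have h2 : HV v = HV v' := by
    have h3 : (HV v : ℝ) = HV v' := by rw [HV_eq T px, HV_eq T px, h]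
    exact_mod_cast h3
  have hn : (0 : ℝ) ≤ n := Nat.cast_nonneg n
  cases v with
  | t =>
    cases v' with
    | t => rfl
    | _ => exfalso; simp only [HV] at h2; omega
  | b =>
    cases v' with
    | b => rfl
    | _ => exfalso; simp only [HV] at h2; omega
  | A j x =>
    cases v' with
    | A j' x' =>
      have hj : j = j' := by simp only [HV] at h2; omega
      have hx : x = x' := by
        simp only [tpos] at h1
        exact hg.inj (by exact_mod_cast h1)
      rw [hj, hx]
    | FA j' s' => exact absurd h1 (XS_ne_px hg x s')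
    | _ => exfalso; simp only [HV] at h2; omega
  | B j x =>
    cases v' with
    | B j' x' =>
      have hj : j = j' := by simp only [HV] at h2; omega
      have hx : x = x' := by
        simp only [tpos] at h1
        exact hg.inj (by exact_mod_cast h1)
      rw [hj, hx]
    | _ => exfalso; simp only [HV] at h2; omega
  | FA j s =>
    cases v' with
    | A j' x' => exact absurd h1.symm (XS_ne_px hg x' s)
    | FA j' s' =>
      have hj : j = j' := by simp only [HV] at h2; omega
      have hs : s = s' := XS_inj (n := n) h1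
      rw [hj, hs]
    | _ => exfalso; simp only [HV] at h2; omega
  | FB j s =>
    cases v' with
    | FB j' s' =>
      have hj : j = j' := by simp only [HV] at h2; omega
      have hs : s = s' := XS_inj (n := n) h1
      rw [hj, hs]
    | w j' =>
      exfalso
      have h3 : XS n s = 1 / 2 := h1
      rcases XS_cases n s with ⟨_, h⟩ | ⟨_, h⟩ <;> rw [h] at h3 <;> linarith
    | _ => exfalso; simp only [HV] at h2; omega
  | u j =>
    cases v' with
    | u j' =>
      have hj : j = j' := by simp only [HV] at h2; omega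
      rw [hj]
    | z j' s' =>
      exfalso
      obtain ⟨p1, p2⟩ := px_bd hg (en T j' s')
      simp only [tpos] at h1
      linarith
    | _ => exfalso; simp only [HV] at h2; omega
  | w j =>
    cases v' with
    | FB j' s' =>
      exfalso
      have h3 : 1 / 2 = XS n s' := h1
      rcases XS_cases n s' with ⟨_, h⟩ | ⟨_, h⟩ <;> rw [h] at h3 <;> linarith
    | w j' =>
      have hj : j = j' := by simp only [HV] at h2; omega
      rw [hj]
    | _ => exfalso; simp only [HV] at h2; omega
  | z j s =>
    cases v' with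
    | u j' =>
      exfalso
      obtain ⟨p1, p2⟩ := px_bd hg (en T j s)
      simp only [tpos] at h1
      linarith
    | z j' s' =>
      have hj : j = j' := by simp only [HV] at h2; omega
      subst hj
      simp only [tpos] at h1
      have h3 : px (en T j s) = px (en T j s') := by
        have h4 : (px (en T j s) : ℝ) = px (en T j s') := by linarith
        exact_mod_cast h4
      have h5 := en_ne hg j
      have hs : s = s' := by
        cases s <;> cases s'
        · rfl
        · exact absurd h3 h5
        · exact absurd h3.symm h5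
        · rfl
      rw [hs]
    | _ => exfalso; simp only [HV] at h2; omega

/-- module TPL -/
theorem tpl : TplStmt := by
  intro n m T px hg
  refine ⟨tpos_inj hg, ?_⟩
  rintro e f hne hF z ⟨hz1, hz2⟩
  have r1 := rg_of_mem T px hg e z hz1
  have r2 := rg_of_mem T px hg f z hz2
  obtain ⟨v, hv, hzv⟩ := ep_of_epc T px e z hz1 (epc_pair hg e f hne hF r1 r2)
  obtain ⟨v', hv', hzv'⟩ := ep_of_epc T px f z hz2 (epc_pair hg f e hne.symm hF.symm r2 r1)
  have hvv : v = v' := tpos_inj hg (hzv.symm.trans hzv')
  subst hvv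
  exact ⟨v, hv, hv', hzv⟩

end Pool.Agent.LCR.H91
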